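import Pool.Agent.Helper11.PP.Defs

set_option autoImplicit false

/-!
# Basic algebra of names, points and refinements
-/

namespace Pool.Agent.Helper11.PP

@[simp] theorem sub_apply (s : Nm) (w v : List ℕ) : sub s w v = s (w ++ v) := rfl

@[simp] theorem sub_nil (s : Nm) : sub s [] = s := by
  ext v; simp

theorem sub_sub (s : Nm) (w v : List ℕ) : sub (sub s w) v = sub s (w ++ v) := by
  ext u; simp [List.append_assoc]

theorem cut_apply (i : ℕ) (s : Nm) (w : List ℕ) :
    cut i s w = if s w ≠ 0 ∧ (∀ a ∈ w, a < i) then (s w - 1) % 2 ^ i + 1 else 0 := by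
  classical
  unfold cut
  rw [Finsupp.onFinset_apply]

theorem cut_apply_of (i : ℕ) (s : Nm) (w : List ℕ) (h : s w ≠ 0) (hw : ∀ a ∈ w, a < i) :
    cut i s w = (s w - 1) % 2 ^ i + 1 := by
  rw [cut_apply, if_pos ⟨h, hw⟩]

theorem cut_ne_zero {i : ℕ} {s : Nm} {w : List ℕ} :
    cut i s w ≠ 0 ↔ s w ≠ 0 ∧ ∀ a ∈ w, a < i := by
  rw [cut_apply]
  split_ifs with h
  · exact ⟨fun _ => h, fun _ => Nat.succ_ne_zero _⟩
  · exact ⟨fun h2 => absurd rfl h2, fun h2 => absurd h2 h⟩

theorem iota_apply (J : Nm → Nm → ℕ) (i : ℕ) (s x : Nm) (w : List ℕ) :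
    iota J i s x w = if s w ≠ 0 ∧ (∀ a ∈ w, a < i) then J (sub s w) (sub x w) else 0 := by
  classical
  unfold iota
  rw [Finsupp.onFinset_apply]

theorem iota_of (J : Nm → Nm → ℕ) (i : ℕ) (s x : Nm) (w : List ℕ) (h : s w ≠ 0)
    (hw : ∀ a ∈ w, a < i) : iota J i s x w = J (sub s w) (sub x w) := by
  rw [iota_apply, if_pos ⟨h, hw⟩]

theorem IsName.pref {i h : ℕ} {s : Nm} (hs : IsName i h s) {w v : List ℕ} (hv : s (w ++ v) ≠ 0) :
    s w ≠ 0 := by
  induction v using List.reverseRecOn with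
  | nil => simpa using hv
  | append_singleton v a ih =>
    rw [← List.append_assoc] at hv
    exact ih (hs.2.1 _ _ hv)

theorem IsName.letters {i h : ℕ} {s : Nm} (hs : IsName i h s) {w : List ℕ} (hv : s w ≠ 0) :
    ∀ a ∈ w, a < i := (hs.2.2 w hv).1

theorem IsName.length {i h : ℕ} {s : Nm} (hs : IsName i h s) {w : List ℕ} (hv : s w ≠ 0) :
    w.length ≤ h := (hs.2.2 w hv).2.1

theorem IsName.le {i h : ℕ} {s : Nm} (hs : IsName i h s) {w : List ℕ} (hv : s w ≠ 0) :
    s w ≤ 2 ^ i := (hs.2.2 w hv).2.2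

theorem IsName.sub {i h : ℕ} {s : Nm} (hs : IsName i h s) {w : List ℕ} (hw : s w ≠ 0) :
    IsName i h (sub s w) := by
  refine ⟨by simpa using hw, ?_, ?_⟩
  · intro v a hv
    rw [sub_apply, ← List.append_assoc] at hv
    exact hs.2.1 _ _ hv
  · intro v hv
    rw [sub_apply] at hv
    refine ⟨fun a ha => hs.letters hv a (List.mem_append_right _ ha), ?_, ?_⟩
    · have := hs.length hv
      rw [List.length_append] at this
      omega
    · rw [sub_apply]; exact hs.le hv

theorem IsName.cut {i i' h : ℕ} {s : Nm} (hs : IsName i' h s) : IsName i h (cut i s) := by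
  refine ⟨?_, ?_, ?_⟩
  · rw [cut_ne_zero]
    exact ⟨hs.1, by simp⟩
  · intro w a hw
    rw [cut_ne_zero] at hw ⊢
    exact ⟨hs.2.1 _ _ hw.1, fun b hb => hw.2 b (List.mem_append_left _ hb)⟩
  · intro w hw
    have hw' := cut_ne_zero.1 hw
    refine ⟨hw'.2, hs.length hw'.1, ?_⟩
    rw [cut_apply_of _ _ _ hw'.1 hw'.2]
    have : (s w - 1) % 2 ^ i < 2 ^ i := Nat.mod_lt _ (by positivity)
    omega

theorem cut_of_name {i h : ℕ} {s : Nm} (hs : IsName i h s) : Pool.Agent.Helper11.PP.cut i s = s := by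
  ext w
  by_cases hw : s w = 0
  · rw [cut_apply, if_neg (by simp [hw]), hw]
  · rw [cut_apply_of _ _ _ hw (hs.letters hw)]
    have h1 := hs.le hw
    have h2 : (s w - 1) % 2 ^ i = s w - 1 := Nat.mod_eq_of_lt (by omega)
    omega

theorem cut_sub {i : ℕ} {s : Nm} {w : List ℕ} (hw : ∀ a ∈ w, a < i) :
    cut i (sub s w) = sub (cut i s) w := by
  ext v
  rw [sub_apply, cut_apply, cut_apply, sub_apply]
  have h : (∀ a ∈ v, a < i) ↔ (∀ a ∈ w ++ v, a < i) := by
    constructor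
    · intro h a ha
      rcases List.mem_append.1 ha with h1 | h1
      · exact hw a h1
      · exact h a h1
    · intro h a ha
      exact h a (List.mem_append_right _ ha)
  exact if_congr (and_congr Iff.rfl h) rfl rfl

theorem cut_cut {i i' : ℕ} (hi : i ≤ i') (s : Nm) : cut i (cut i' s) = cut i s := by
  ext w
  by_cases h : s w ≠ 0 ∧ ∀ a ∈ w, a < i
  · have h1 : ∀ a ∈ w, a < i' := fun a ha => lt_of_lt_of_le (h.2 a ha) hi
    rw [cut_apply_of i s w h.1 h.2, cut_apply_of i _ w (cut_ne_zero.2 ⟨h.1, h1⟩) h.2,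
      cut_apply_of i' s w h.1 h1]
    rw [Nat.add_sub_cancel, Nat.mod_mod_of_dvd _ (pow_dvd_pow 2 hi)]
  · rw [cut_apply i s, if_neg h, cut_apply, if_neg]
    intro h2
    exact h ⟨(cut_ne_zero.1 h2.1).1, h2.2⟩

theorem IsPoint.sub {s : Nm} {N : ℕ} {x : Nm} (hx : IsPoint s N x) (w : List ℕ) :
    IsPoint (sub s w) N (sub x w) := by
  refine ⟨fun v hv => hx.1 _ hv, fun v hv => hx.2.1 _ hv, fun v v' hv hv' hlt => ?_⟩
  rw [sub_apply, sub_apply]
  exact hx.2.2 _ _ hv hv' (List.append_left_lt hlt)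

/-- Points of the same name are equal if they agree on the nodes. -/
theorem IsPoint.ext {s : Nm} {N N' : ℕ} {x y : Nm} (hx : IsPoint s N x) (hy : IsPoint s N' y)
    (h : ∀ w, s w ≠ 0 → x w = y w) : x = y := by
  ext w
  by_cases hw : s w = 0
  · rw [hx.1 w hw, hy.1 w hw]
  · exact h w hw

theorem exists_maxlen {s : Nm} (hs : s [] ≠ 0) :
    ∃ v, s v ≠ 0 ∧ ∀ u, s u ≠ 0 → u.length ≤ v.length := by
  have hne : s.support.Nonempty := ⟨[], by simpa using hs⟩
  obtain ⟨v, hv, hmax⟩ := Finset.exists_max_image s.support List.length hne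
  exact ⟨v, by simpa using hv, fun u hu => hmax u (by simpa using hu)⟩

/-- A name is not a proper sub-name of itself. -/
theorem sub_ne_self {s : Nm} (hs : s [] ≠ 0) {w : List ℕ} (hw : w ≠ []) : sub s w ≠ s := by
  intro h
  obtain ⟨v, hv, hmax⟩ := exists_maxlen hs
  have h1 : s (w ++ v) ≠ 0 := by
    rw [← sub_apply, h]; exact hv
  have h2 := hmax _ h1
  rw [List.length_append] at h2
  have h3 : 0 < w.length := List.length_pos_iff.2 hw
  omega

theorem Ref.refl_of {h : ℕ} {p : Sys} : Ref h p p := by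
  refine ⟨le_rfl, fun _ x => x [], fun s x hs hx => ?_⟩
  have h1 : iota (fun _ x => x []) p.i s x = x := by
    ext w
    by_cases hw : s w = 0
    · rw [iota_apply, if_neg (by simp [hw]), hx.1 w hw]
    · rw [iota_of _ _ _ _ _ hw (hs.letters hw)]; simp
  rw [cut_of_name hs, h1]
  exact ⟨hx, rfl⟩

theorem iota_iota (J J' : Nm → Nm → ℕ) {i i' : ℕ} (hi : i ≤ i') (s x : Nm) :
    iota J i (cut i' s) (iota J' i' s x) =
      iota (fun s' x' => J (cut i' s') (iota J' i' s' x')) i s x := by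
  ext w
  by_cases h : s w ≠ 0 ∧ ∀ a ∈ w, a < i
  · have h1 : ∀ a ∈ w, a < i' := fun a ha => lt_of_lt_of_le (h.2 a ha) hi
    rw [iota_of _ _ _ _ _ (cut_ne_zero.2 ⟨h.1, h1⟩) h.2, iota_of _ _ _ _ _ h.1 h.2]
    have h2 : sub (iota J' i' s x) w = iota J' i' (sub s w) (sub x w) := by
      ext v
      rw [sub_apply, iota_apply, iota_apply, sub_apply, sub_sub, sub_sub]
      have h : (∀ a ∈ v, a < i') ↔ (∀ a ∈ w ++ v, a < i') := by
        constructor
        · intro h a ha
          rcases List.mem_append.1 ha with h1' | h1'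
          · exact h1 a h1'
          · exact h a h1'
        · intro h a ha
          exact h a (List.mem_append_right _ ha)
      exact if_congr (and_congr Iff.rfl h.symm) rfl rfl
    rw [h2, cut_sub h1]
  · rw [iota_apply J i, iota_apply _ i s, if_neg h, if_neg]
    intro h2
    exact h ⟨(cut_ne_zero.1 h2.1).1, h2.2⟩

theorem st_trans : ST_trans := by
  intro h r q p hrq hqp
  obtain ⟨h1, J', hJ'⟩ := hrq
  obtain ⟨h2, J, hJ⟩ := hqp
  refine ⟨h2.trans h1, fun s' x' => J (cut q.i s') (iota J' q.i s' x'), fun s x hs hx => ?_⟩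
  obtain ⟨h3, h4⟩ := hJ' s x hs hx
  have hs' : IsName q.i h (cut q.i s) := hs.cut
  obtain ⟨h5, h6⟩ := hJ _ _ hs' h3
  rw [cut_cut h2, iota_iota J J' h2] at h5 h6
  exact ⟨h5, h4.trans h6⟩

theorem Aset_subset_of_ref {h : ℕ} {q p : Sys} (hqp : Ref h q p) {s : Nm} (hs : IsName q.i h s) :
    Aset q s ⊆ Aset p (cut p.i s) := by
  obtain ⟨_, J, hJ⟩ := hqp
  rintro _ ⟨x, hx, rfl⟩
  obtain ⟨h3, h4⟩ := hJ s x hs hx
  exact ⟨_, h3, h4⟩

theorem Aset_subset_of_ref_eq {h : ℕ} {q p : Sys} (hqp : Ref h q p) (hi : q.i = p.i) {s : Nm}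
    (hs : IsName q.i h s) : Aset q s ⊆ Aset p s := by
  have := Aset_subset_of_ref hqp hs
  rwa [cut_of_name (hi ▸ hs)] at this

/-! ### Finiteness -/

theorem finite_words (i h : ℕ) : {w : List ℕ | (∀ a ∈ w, a < i) ∧ w.length ≤ h}.Finite := by
  have h1 : {w : List ℕ | (∀ a ∈ w, a < i) ∧ w.length ≤ h} ⊆
      (List.map (fun a : Fin i => (a : ℕ))) '' {l : List (Fin i) | l.length ≤ h} := by
    rintro w ⟨h1, h2⟩
    refine ⟨w.pmap (fun a ha => ⟨a, ha⟩) h1, by simpa using h2, ?_⟩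
    rw [List.map_pmap]
    simp
  exact ((List.finite_length_le (Fin i) h).image _).subset h1

theorem finite_finsupp_of_bound (S : Set (List ℕ)) (hS : S.Finite) (M : ℕ) :
    {x : Nm | (∀ w, x w ≠ 0 → w ∈ S) ∧ ∀ w, x w ≤ M}.Finite := by
  classical
  have h1 := Finset.finite_toSet (Finset.finsupp hS.toFinset (fun _ => Finset.range (M + 1)))
  refine h1.subset ?_
  rintro x ⟨hx1, hx2⟩
  rw [Finset.mem_coe, Finset.mem_finsupp_iff]
  refine ⟨fun w hw => ?_, fun w _ => ?_⟩
  · simpa using hx1 w (by simpa using hw)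
  · have := hx2 w
    simpa using Nat.lt_succ_of_le this

theorem names_finite (i h : ℕ) : {s : Nm | IsName i h s}.Finite := by
  refine (finite_finsupp_of_bound _ (finite_words i h) (2 ^ i)).subset ?_
  intro s hs
  refine ⟨fun w hw => ⟨hs.letters hw, hs.length hw⟩, fun w => ?_⟩
  by_cases hw : s w = 0
  · rw [hw]; exact Nat.zero_le _
  · exact hs.le hw

theorem points_finite (s : Nm) (N : ℕ) : {x : Nm | IsPoint s N x}.Finite := by
  refine (finite_finsupp_of_bound {w | s w ≠ 0} ?_ N).subset ?_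
  · have := s.support.finite_toSet
    refine this.subset ?_
    intro w hw
    simpa using hw
  · intro x hx
    refine ⟨fun w hw => ?_, fun w => ?_⟩
    · intro h
      exact hw (hx.1 w h)
    · by_cases hw : s w = 0
      · rw [hx.1 w hw]; exact Nat.zero_le _
      · exact (hx.2.1 w hw).le

theorem Aset_finite (p : Sys) (s : Nm) : (Aset p s).Finite := by
  have h1 : Aset p s = (fun x => p.c (s, x)) '' {x | IsPoint s p.N x} := by
    ext q
    constructor
    · rintro ⟨x, hx, rfl⟩; exact ⟨x, hx, rfl⟩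
    · rintro ⟨x, hx, rfl⟩; exact ⟨x, hx, rfl⟩
  rw [h1]
  exact (points_finite s p.N).image _

theorem pairs_finite (i h N : ℕ) : {z : Nm × Nm | IsName i h z.1 ∧ IsPoint z.1 N z.2}.Finite := by
  have h1 : {z : Nm × Nm | IsName i h z.1 ∧ IsPoint z.1 N z.2} ⊆
      ⋃ s ∈ {s : Nm | IsName i h s}, (fun x => (s, x)) '' {x | IsPoint s N x} := by
    rintro ⟨s, x⟩ ⟨h1, h2⟩
    simp only [Set.mem_iUnion]
    exact ⟨s, h1, x, h2, rfl⟩
  exact ((names_finite i h).biUnion (fun s _ => (points_finite s N).image _)).subset h1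

/-! ### Construction of systems -/

/-- The system of level `i` and size `N` with prescribed values on names and points. -/
noncomputable def mkSys (h i N : ℕ) (f : Nm → Nm → ℕ) : Sys := by
  classical
  exact ⟨i, N, Finsupp.onFinset (pairs_finite i h N).toFinset
    (fun z => if IsName i h z.1 ∧ IsPoint z.1 N z.2 then f z.1 z.2 else 0)
    (by
      intro z hz
      rw [Set.Finite.mem_toFinset]
      by_contra hcon
      exact hz (if_neg hcon))⟩

@[simp] theorem mkSys_i (h i N : ℕ) (f : Nm → Nm → ℕ) : (mkSys h i N f).i = i := rfl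
@[simp] theorem mkSys_N (h i N : ℕ) (f : Nm → Nm → ℕ) : (mkSys h i N f).N = N := rfl

theorem mkSys_c (h i N : ℕ) (f : Nm → Nm → ℕ) {s x : Nm} (hs : IsName i h s)
    (hx : IsPoint s N x) : (mkSys h i N f).c (s, x) = f s x := by
  classical
  unfold mkSys
  simp only [Finsupp.onFinset_apply]
  rw [if_pos ⟨hs, hx⟩]

theorem st_exists : ST_exists := by
  intro h i N
  obtain ⟨e, he⟩ := Countable.exists_injective_nat Nm
  refine ⟨mkSys h i N (fun _ x => e x), ?_, rfl, rfl⟩
  intro s hs x x' hx hx' heq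
  rw [mkSys_c h i N _ hs hx, mkSys_c h i N _ hs hx'] at heq
  exact he heq

theorem st_reindex : ST_reindex := by
  intro h p hp N' g hg1 hg2
  have hpt : ∀ s x, IsName p.i h s → IsPoint s N' x →
      IsPoint s p.N (iota (fun s' x' => g s' (x' [])) p.i s x) := by
    intro s x hs hx
    refine ⟨fun w hw => ?_, fun w hw => ?_, fun w w' hw hw' hlt => ?_⟩
    · rw [iota_apply, if_neg (by simp [hw])]
    · rw [iota_of _ _ _ _ _ hw (hs.letters hw)]
      apply hg1
      simpa using hx.2.1 w hw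
    · rw [iota_of _ _ _ _ _ hw (hs.letters hw), iota_of _ _ _ _ _ hw' (hs.letters hw')]
      apply hg2
      · simpa using hx.2.2 w w' hw hw' hlt
      · simpa using hx.2.1 w' hw'
  refine ⟨mkSys h p.i N' (fun s x => p.c (s, iota (fun s' x' => g s' (x' [])) p.i s x)),
    ?_, ?_, rfl, rfl, fun s x hs hx => ⟨hpt s x hs hx, mkSys_c _ _ _ _ hs hx⟩⟩
  · intro s hs x x' hx hx' heq
    rw [mkSys_i] at hs
    rw [mkSys_N] at hx hx'
    rw [mkSys_c _ _ _ _ hs hx, mkSys_c _ _ _ _ hs hx'] at heq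
    have h1 := hp s hs _ _ (hpt s x hs hx) (hpt s x' hs hx') heq
    refine hx.ext hx' fun w hw => ?_
    have h2 := DFunLike.congr_fun h1 w
    rw [iota_of _ _ _ _ _ hw (hs.letters hw), iota_of _ _ _ _ _ hw (hs.letters hw)] at h2
    simp only [sub_apply, List.append_nil] at h2
    rcases lt_trichotomy (x w) (x' w) with h3 | h3 | h3
    · exact absurd h2 (ne_of_lt (hg2 _ _ _ _ h3 (hx'.2.1 w hw)))
    · exact h3
    · exact absurd h2.symm (ne_of_lt (hg2 _ _ _ _ h3 (hx.2.1 w hw)))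
  · refine ⟨le_rfl, fun s' x' => g s' (x' []), fun s x hs hx => ?_⟩
    rw [mkSys_i] at hs
    rw [mkSys_N] at hx
    rw [cut_of_name hs]
    exact ⟨hpt s x hs hx, mkSys_c _ _ _ _ hs hx⟩

/-- `KGood` is inherited by refinements of the same level. -/
theorem KGood.of_ref {h : ℕ} {q p : Sys} (hqp : Ref h q p) (hi : q.i = p.i) {ψ : Finset ℕ → Set ℕ}
    {s : Nm} (hs : IsName p.i h s) (hK : KGood h p ψ s) : KGood h q ψ s := by
  intro t ht hne B hB
  have h1 := Aset_subset_of_ref_eq hqp hi (hi ▸ hs)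
  have h2 := Aset_subset_of_ref_eq hqp hi ht
  rcases hK t (hi ▸ ht) hne B (hB.trans h2) with h3 | h3
  · exact Or.inl (h3.mono_right h1)
  · exact Or.inr (fun h4 => h3 (h4.trans h1))

theorem Good.of_ref {h : ℕ} {q p : Sys} (hqp : Ref h q p) (hi : q.i = p.i) {C : Set ℕ}
    {ψ : Finset ℕ → Set ℕ} (hG : Good h p C ψ) : Good h q C ψ := by
  refine ⟨fun s hs => ?_, fun s hs => (hG.2 s (hi ▸ hs)).of_ref hqp hi (hi ▸ hs)⟩
  have h1 := Aset_subset_of_ref_eq hqp hi hs
  rcases hG.1 s (hi ▸ hs) with h3 | h3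
  · exact Or.inl (h1.trans h3)
  · exact Or.inr (h3.mono_left h1)

instance : Countable Sys := by
  have h : Function.Injective (fun p : Sys => (p.i, p.N, p.c)) := by
    rintro ⟨i, N, c⟩ ⟨i', N', c'⟩ h
    simp only [Prod.mk.injEq] at h
    obtain ⟨rfl, rfl, rfl⟩ := h
    rfl
  exact h.countable

instance : Nonempty Sys := ⟨⟨0, 0, 0⟩⟩

end Pool.Agent.Helper11.PP
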