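import Pool.Agent.Helper11.PP.Level3
import Pool.Agent.Helper18.PP.Twins
import Pool.Agent.Helper22.PP.Labels
import Pool.Agent.Helper34.PP.Gen
import Pool.Agent.Helper34.PP.Msat
import Pool.Agent.Helper35.PP.StG
import Pool.Agent.Helper35.PP.Base1
import Pool.Agent.Helper76.PP.Final
import Pool.Agent.Helper89.PP.Names

set_option autoImplicit false

/-!
# Assembly of all modules (module Z)
-/

namespace Pool.Agent.Helper11.PP

open Cardinal Filter Set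
open Pool.Agent.H32.PP (MAsc CI)

theorem exists_G : ST_G := by
  have hre := st_reindex
  have hU := Pool.Agent.Helper35.PP.st_U hre
  have hK := Pool.Agent.Helper18.PP.stK hre
  exact Pool.Agent.Helper35.PP.st_G st_trans hre hU hK

theorem st_names : ST_names :=
  Pool.Agent.Helper89.PP.names_of Pool.Agent.Helper22.PP.labels
    (st_level Pool.Agent.Helper34.PP.msat)

/-- Enumeration of all pairs `(C, ψ)`. -/
theorem exists_enum : ∃ (CC : CI → ℕ → Set ℕ) (PP : CI → ℕ → Finset ℕ → Set ℕ),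
    ∀ C ψ, ∃ β, CC β = C ∧ PP β = ψ := by
  have h1 : #((ℕ → Set ℕ) × (ℕ → Finset ℕ → Set ℕ)) ≤ #CI := by
    rw [Pool.Agent.H32.PP.mk_CI, Cardinal.mk_prod, Cardinal.lift_id, Cardinal.lift_id]
    have h2 : #(Set ℕ) = 𝔠 := by simp
    have h3 : #(ℕ → Set ℕ) = 𝔠 := by
      rw [← Cardinal.power_def, h2]; simp
    have h4 : #(Finset ℕ → Set ℕ) = 𝔠 := by
      rw [← Cardinal.power_def, h2]; simp
    have h5 : #(ℕ → Finset ℕ → Set ℕ) = 𝔠 := by
      rw [← Cardinal.power_def, h4]; simp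
    rw [h3, h5]
    simp
  obtain ⟨f⟩ := Cardinal.le_def _ _ |>.1 h1
  have hsurj := Function.invFun_surjective f.injective
  refine ⟨fun β => (Function.invFun f β).1, fun β => (Function.invFun f β).2, fun C ψ => ?_⟩
  obtain ⟨β, hβ⟩ := hsurj (C, ψ)
  refine ⟨β, ?_, ?_⟩
  · simp only [hβ]
  · simp only [hβ]

/-- Enumeration of the initial segments. -/
theorem exists_ch {X : Type} [PartialOrder X] (h : ∀ x : X, #(Set.Iic x) ≤ 𝔠) :
    ∃ ch : X → CI → X, (∀ y ξ, ch y ξ ≤ y) ∧ ∀ y z, z ≤ y → ∃ ξ, ch y ξ = z := by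
  have key : ∀ y : X, ∃ f : CI → Set.Iic y, Function.Surjective f := by
    intro y
    have h1 : #(Set.Iic y) ≤ #CI := by rw [Pool.Agent.H32.PP.mk_CI]; exact h y
    obtain ⟨f⟩ := Cardinal.le_def _ _ |>.1 h1
    haveI : Nonempty (Set.Iic y) := ⟨⟨y, le_rfl⟩⟩
    exact ⟨Function.invFun f, Function.invFun_surjective f.injective⟩
  choose f hf using key
  refine ⟨fun y ξ => (f y ξ).1, fun y ξ => (f y ξ).2, fun y z hz => ?_⟩
  obtain ⟨ξ, hξ⟩ := hf y ⟨z, hz⟩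
  exact ⟨ξ, by simp only [hξ]⟩

theorem tukey_of_rk {α β : Type} {E : Ultrafilter α} {F : Ultrafilter β} {f : α → β}
    (h : E.map f = F) : TukeyMap E F (fun A => f '' A) := by
  subst h
  refine ⟨fun A hA => ?_, fun 𝒳 h1 h2 B hB => ?_⟩
  · rw [Ultrafilter.mem_map]
    exact Filter.mem_of_superset hA (Set.subset_preimage_image f A)
  · obtain ⟨C, hC1, hC2⟩ := h2 _ (Ultrafilter.mem_map.1 hB)
    exact ⟨C, hC1, Set.image_subset_iff.2 hC2⟩

theorem tukey_transfer {α β α' β' : Type} {E : Ultrafilter α} {F : Ultrafilter β} (π : α ≃ α')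
    (ρ : β ≃ β') {g : Set α' → Set β'} (h : TukeyMap (E.map π) (F.map ρ) g) :
    TukeyMap E F (fun A => ρ ⁻¹' (g (π '' A))) := by
  have himg : ∀ A ∈ E, π '' A ∈ E.map π := by
    intro A hA
    rw [Ultrafilter.mem_map, Set.preimage_image_eq A π.injective]
    exact hA
  refine ⟨fun A hA => Ultrafilter.mem_map.1 (h.1 _ (himg A hA)), fun 𝒳 h1 h2 B hB => ?_⟩
  obtain ⟨C', hC'1, hC'2⟩ := h.2 ((fun C => π '' C) '' 𝒳) (by
      rintro _ ⟨C, hC, rfl⟩
      exact himg C (h1 C hC))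
    (by
      intro A hA
      obtain ⟨C, hC1, hC2⟩ := h2 _ (Ultrafilter.mem_map.1 hA)
      exact ⟨_, ⟨C, hC1, rfl⟩, Set.image_subset_iff.2 hC2⟩)
    (ρ '' B) (by
      rw [Ultrafilter.mem_map, Set.preimage_image_eq B ρ.injective]
      exact hB)
  obtain ⟨C, hC, rfl⟩ := hC'1
  refine ⟨C, hC, ?_⟩
  intro z hz
  have h3 : ρ z ∈ ρ '' B := hC'2 hz
  obtain ⟨z', hz', heq⟩ := h3
  rw [← ρ.injective heq]
  exact hz'

theorem main (hT : ST_tukey) (hMA : MAsc) (X : Type) [PartialOrder X]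
    (hX : #X ≤ (2 : Cardinal) ^ 𝔠) (hI : ∀ x : X, #(Set.Iic x) ≤ 𝔠) :
    ∃ e : X → Ultrafilter ℕ,
        (∀ x : X, (∀ s : Set ℕ, s.Finite → s ∉ e x) ∧
            ∀ A : ℕ → Set ℕ, (∀ n, A n ∈ e x) →
              ∃ B ∈ e x, ∀ n, (B \ A n).Finite) ∧
        (∀ x y : X, x ≤ y ↔ ∃ f : ℕ → ℕ, Ultrafilter.map f (e y) = e x) ∧
        (∀ x y : X, x ≤ y ↔
          ∃ g : Set ℕ → Set ℕ, (∀ A ∈ e y, g A ∈ e x) ∧
            ∀ 𝒳 : Set (Set ℕ), (∀ C ∈ 𝒳, C ∈ e y) →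
              (∀ A ∈ e y, ∃ C ∈ 𝒳, C ⊆ A) →
              ∀ B ∈ e x, ∃ C ∈ 𝒳, g C ⊆ B) := by
  obtain ⟨hB, U, hU⟩ := Pool.Agent.Helper35.PP.st_base hMA
  obtain ⟨G, hG⟩ := exists_G
  obtain ⟨CC, PP, hCP⟩ := exists_enum
  obtain ⟨p, hp⟩ := Pool.Agent.Helper34.PP.gen st_trans st_exists U hU G hG CC PP
  obtain ⟨ch, hch1, hch2⟩ := exists_ch hI
  have hgr : Growth U (fun δ n => (p δ n).i) :=
    ⟨hp.dbl, fun δ k => (hp.large δ k).mono fun n hn => hn.1⟩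
  obtain ⟨s, hs⟩ := st_names hMA hB U hU X hX ch hch1 _ hgr
  obtain ⟨V, hV⟩ := st_UFs hB U hU X ch hch1 G hG CC PP
    (fun C => by
      obtain ⟨β, hβ, _⟩ := hCP C (fun _ _ => ∅)
      exact ⟨β, hβ⟩) p hp s hs
  have hfin := st_final hT hB U hU X ch hch1 G hG CC PP hCP p hp s hs V hV
  let π : ℕ × ℕ ≃ ℕ := Nat.pairEquiv
  have hRK : ∀ x y : X, x ≤ y → ∃ f : ℕ → ℕ,
      Ultrafilter.map f ((V y).map π) = (V x).map π := by
    intro x y hxy
    rcases hxy.lt_or_eq with h | h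
    · obtain ⟨ξ, hξ⟩ := hch2 y x hxy
      obtain ⟨f, hf⟩ := hV.rk y ξ (by rw [hξ]; exact h)
      rw [hξ] at hf
      refine ⟨fun k => π (f (π.symm k)), ?_⟩
      rw [Ultrafilter.map_map, ← hf, Ultrafilter.map_map]
      congr 1
      funext z
      simp
    · subst h
      exact ⟨id, Ultrafilter.map_id _⟩
  have hback : ∀ x y : X, (∃ g, TukeyMap ((V y).map π) ((V x).map π) g) → x ≤ y := by
    rintro x y ⟨g, hg⟩
    by_contra hxy
    exact hfin x y hxy _ (tukey_transfer π π hg)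
  refine ⟨fun x => (V x).map π, fun x => ⟨fun S hS hmem => ?_, fun A hA => ?_⟩,
    fun x y => ⟨hRK x y, ?_⟩, fun x y => ⟨fun hxy => ?_, ?_⟩⟩
  · rw [Ultrafilter.mem_map] at hmem
    have h1 : (π ⁻¹' S).Finite := hS.preimage π.injective.injOn
    have h2 : Prod.fst '' (π ⁻¹' S) ∈ U := by
      rw [← hV.proj x, Ultrafilter.mem_map]
      exact Filter.mem_of_superset hmem (Set.subset_preimage_image _ _)
    obtain ⟨m, hm⟩ := (h1.image Prod.fst).bddAbove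
    have h3 : ∀ᶠ n in (U : Filter ℕ), m + 1 ≤ n := hU.free (m + 1)
    obtain ⟨n, hn1, hn2⟩ := Ultrafilter.nonempty_of_mem (Filter.inter_mem h2 h3)
    have h4 : n ≤ m := hm hn1
    have h5 : m + 1 ≤ n := hn2
    omega
  · obtain ⟨B, hB1, hB2⟩ := hV.ppoint x (fun k => π ⁻¹' (A k))
      (fun k => Ultrafilter.mem_map.1 (hA k))
    refine ⟨π '' B, ?_, fun k => ?_⟩
    · rw [Ultrafilter.mem_map, Set.preimage_image_eq B π.injective]
      exact hB1
    · have h1 : π '' B \ A k ⊆ π '' (B \ (π ⁻¹' (A k))) := by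
        rintro _ ⟨⟨z, hz, rfl⟩, h2⟩
        exact ⟨z, ⟨hz, h2⟩, rfl⟩
      exact ((hB2 k).image _).subset h1
  · rintro ⟨f, hf⟩
    exact hback x y ⟨_, tukey_of_rk hf⟩
  · obtain ⟨f, hf⟩ := hRK x y hxy
    exact ⟨_, tukey_of_rk hf⟩
  · rintro ⟨g, hg⟩
    exact hback x y ⟨g, hg⟩

end Pool.Agent.Helper11.PP
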