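import Mathlib

set_option autoImplicit false

/-!
# Names, points, systems (finite combinatorics of MP_505789_lc)

Words are lists of naturals, ordered lexicographically.  A name is a finitely supported
function on words (value 0 = no node, value l+1 = a node with label l).  A point of a name `s`
is a strictly increasing map from the nodes of `s` to `[0,N)`, extended by 0.
-/

namespace Pool.Agent.Helper11.PP

/-- Names and points are finitely supported functions on words. -/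
abbrev Nm : Type := List ℕ →₀ ℕ

/-- The part of `s` above the word `w`. -/
noncomputable def sub (s : Nm) (w : List ℕ) : Nm :=
  s.comapDomain (fun v => w ++ v) (List.append_right_injective w).injOn

/-- Keep the words with letters `< i`, reduce the labels modulo `2 ^ i`. -/
noncomputable def cut (i : ℕ) (s : Nm) : Nm := by
  classical
  exact Finsupp.onFinset s.support
    (fun w => if s w ≠ 0 ∧ (∀ a ∈ w, a < i) then (s w - 1) % 2 ^ i + 1 else 0)
    (by
      intro w hw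
      rw [Finsupp.mem_support_iff]
      by_contra hcon
      exact hw (if_neg (fun h => h.1 hcon)))

/-- Names of level `i` and height at most `h`. -/
def IsName (i h : ℕ) (s : Nm) : Prop :=
  s [] ≠ 0 ∧ (∀ w a, s (w ++ [a]) ≠ 0 → s w ≠ 0) ∧
    ∀ w, s w ≠ 0 → (∀ a ∈ w, a < i) ∧ w.length ≤ h ∧ s w ≤ 2 ^ i

/-- Points of a name. -/
def IsPoint (s : Nm) (N : ℕ) (x : Nm) : Prop :=
  (∀ w, s w = 0 → x w = 0) ∧ (∀ w, s w ≠ 0 → x w < N) ∧
    ∀ w w', s w ≠ 0 → s w' ≠ 0 → w < w' → x w < x w'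

/-- A system: level, size, and the values `c (s, x)`. -/
structure Sys : Type where
  i : ℕ
  N : ℕ
  c : (Nm × Nm) →₀ ℕ

/-- Validity: the value map is injective in the point, for each name. -/
def Valid (h : ℕ) (p : Sys) : Prop :=
  ∀ s, IsName p.i h s → ∀ x x', IsPoint s p.N x → IsPoint s p.N x' →
    p.c (s, x) = p.c (s, x') → x = x'

/-- The finite set coded by the name `s`. -/
def Aset (p : Sys) (s : Nm) : Set ℕ := {q | ∃ x, IsPoint s p.N x ∧ q = p.c (s, x)}

/-- The point induced by `J` on the nodes with letters `< i`. -/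
noncomputable def iota (J : Nm → Nm → ℕ) (i : ℕ) (s x : Nm) : Nm := by
  classical
  exact Finsupp.onFinset s.support
    (fun w => if s w ≠ 0 ∧ (∀ a ∈ w, a < i) then J (sub s w) (sub x w) else 0)
    (by
      intro w hw
      rw [Finsupp.mem_support_iff]
      by_contra hcon
      exact hw (if_neg (fun h => h.1 hcon)))

/-- `Ref h q p`: `q` refines `p` (with height bound `h`). -/
def Ref (h : ℕ) (q p : Sys) : Prop :=
  p.i ≤ q.i ∧ ∃ J : Nm → Nm → ℕ, ∀ s x, IsName q.i h s → IsPoint s q.N x →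
    IsPoint (cut p.i s) p.N (iota J p.i s x) ∧ q.c (s, x) = p.c (cut p.i s, iota J p.i s x)

/-- The (K) clause for one name `s`. -/
def KGood (h : ℕ) (p : Sys) (ψ : Finset ℕ → Set ℕ) (s : Nm) : Prop :=
  ∀ t, IsName p.i h t → (∀ w, t w ≠ 0 → sub t w ≠ s) →
    ∀ B : Finset ℕ, (B : Set ℕ) ⊆ Aset p t → (Disjoint (ψ B) (Aset p s) ∨ ¬ ψ B ⊆ Aset p s)

/-- A system is good for `(C, ψ)`. -/
def Good (h : ℕ) (p : Sys) (C : Set ℕ) (ψ : Finset ℕ → Set ℕ) : Prop :=
  (∀ s, IsName p.i h s → Aset p s ⊆ C ∨ Disjoint (Aset p s) C) ∧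
    ∀ s, IsName p.i h s → KGood h p ψ s

/-- The functions `G m h i` measuring how large a system has to be. -/
structure IsG (G : ℕ → ℕ → ℕ → ℕ) : Prop where
  mono : ∀ m h i, G m h i ≤ G (m + 1) h i
  point : ∀ h i s N, IsName i h s → G 1 h i ≤ N → ∃ x, IsPoint s N x
  solve : ∀ m h p, Valid h p → G (m + 1) h p.i ≤ p.N → ∀ C ψ,
    ∃ q : Sys, Valid h q ∧ Ref h q p ∧ q.i = p.i ∧ G m h p.i ≤ q.N ∧ Good h q C ψ
  raise : ∀ m h p, Valid h p → G (m + 1) h p.i ≤ p.N →
    ∃ q : Sys, Valid h q ∧ Ref h q p ∧ q.i = 2 * p.i ∧ G m h (2 * p.i) ≤ q.N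

/-! ### Statements of the finite modules -/

/-- F0: systems exist. -/
def ST_exists : Prop := ∀ h i N : ℕ, ∃ p : Sys, Valid h p ∧ p.i = i ∧ p.N = N

/-- F1: refinement is transitive. -/
def ST_trans : Prop := ∀ h r q p, Ref h r q → Ref h q p → Ref h r p

/-- F2: reindexing by maps `g s : [0,N') → [0,p.N)` (depending on the name). -/
def ST_reindex : Prop := ∀ (h : ℕ) (p : Sys), Valid h p → ∀ (N' : ℕ) (g : Nm → ℕ → ℕ),
    (∀ s l, l < N' → g s l < p.N) →
    (∀ s t l l', l < l' → l' < N' → g s l < g t l') →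
    ∃ q : Sys, Valid h q ∧ Ref h q p ∧ q.i = p.i ∧ q.N = N' ∧
      ∀ s x, IsName p.i h s → IsPoint s N' x →
        IsPoint s p.N (iota (fun s' x' => g s' (x' [])) p.i s x) ∧
        q.c (s, x) = p.c (s, iota (fun s' x' => g s' (x' [])) p.i s x)

/-- F3 (U): homogeneity for a set `C`. -/
def ST_U : Prop := ∀ h i N' : ℕ, ∃ N, ∀ p : Sys, Valid h p → p.i = i → N ≤ p.N → ∀ C : Set ℕ,
    ∃ q : Sys, Valid h q ∧ Ref h q p ∧ q.i = i ∧ q.N = N' ∧
      ∀ s, IsName i h s → Aset q s ⊆ C ∨ Disjoint (Aset q s) C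

/-- F4 (K): twins for one name `s`. -/
def ST_K : Prop := ∀ (h i N' : ℕ) (s : Nm), IsName i h s → ∃ N, ∀ p : Sys, Valid h p → p.i = i →
    N ≤ p.N → ∀ ψ : Finset ℕ → Set ℕ,
      ∃ q : Sys, Valid h q ∧ Ref h q p ∧ q.i = i ∧ q.N = N' ∧ KGood h q ψ s

/-- F5: raising the level. -/
def ST_raise : Prop := ∀ h i i' N' : ℕ, i ≤ i' → ∃ N, ∀ p : Sys, Valid h p → p.i = i → N ≤ p.N →
    ∃ q : Sys, Valid h q ∧ Ref h q p ∧ q.i = i' ∧ q.N = N'

/-- F6: the functions `G` exist. -/
def ST_G : Prop := ∃ G : ℕ → ℕ → ℕ → ℕ, IsG G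

end Pool.Agent.Helper11.PP
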