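import Pool.Agent.Helper11.PP.Algebra

set_option autoImplicit false

/-!
# Grafting names (finite part of module I5)
-/

namespace Pool.Agent.Helper11.PP

/-- Lift of a value: labels are raised by `m`, the value 0 (no node) is kept. -/
def lft (m v : ℕ) : ℕ := if v = 0 then 0 else v + m

theorem graft_exists (m r : ℕ) (A : Set ℕ) (hA : A.Finite) (c : ℕ → Nm) (o : Nm) :
    ∃ s : Nm, s [] = r + 1 ∧ (∀ a ∈ A, sub s [a] = c a) ∧
      ∀ a, a ∉ A → ∀ v, s (a :: v) = lft m (o (a :: v)) := by
  classical
  let f : List ℕ → ℕ := fun w =>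
    match w with
    | [] => r + 1
    | a :: v => if a ∈ A then c a v else lft m (o (a :: v))
  have hf : (Function.support f).Finite := by
    have h1 : Function.support f ⊆ {[]} ∪
        ((⋃ a ∈ A, (fun v => a :: v) '' ((c a).support : Set (List ℕ))) ∪
          (o.support : Set (List ℕ))) := by
      intro w hw
      match w, hw with
      | [], _ => simp
      | a :: v, hw =>
        right
        simp only [Function.mem_support, f] at hw
        by_cases ha : a ∈ A
        · left
          rw [if_pos ha] at hw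
          simp only [Set.mem_iUnion]
          exact ⟨a, ha, v, by simpa using hw, rfl⟩
        · right
          rw [if_neg ha] at hw
          unfold lft at hw
          by_cases ho : o (a :: v) = 0
          · exact absurd (if_pos ho) hw
          · simpa using ho
    refine Set.Finite.subset ?_ h1
    refine (Set.finite_singleton _).union ?_
    refine Set.Finite.union ?_ (Finset.finite_toSet _)
    exact hA.biUnion (fun a _ => (Finset.finite_toSet _).image _)
  refine ⟨Finsupp.ofSupportFinite f hf, rfl, fun a ha => ?_, fun a ha v => ?_⟩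
  · ext v
    rw [sub_apply]
    change f (a :: v) = c a v
    simp only [f]
    rw [if_pos ha]
  · change f (a :: v) = _
    simp only [f]
    rw [if_neg ha]

/-- The finite grafting lemma. -/
theorem graft (iδ iγ n k r : ℕ) (A : Set ℕ) (hA : A.Finite) (c : ℕ → Nm) (o : Nm)
    (K : Finset ℕ) (M : Set ℕ)
    (hi : iγ + 1 ≤ iδ)
    (hAi : ∀ a ∈ A, a < iδ)
    (hc : ∀ a ∈ A, IsName iδ n (c a))
    (hck : ∀ a ∈ A, ∀ w, c a w ≠ 0 → w.length + (k + 1) ≤ n)
    (hk : k ≤ n)
    (ho : IsName iγ n o)
    (hok : ∀ w, o w ≠ 0 → w.length + k ≤ n)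
    (hr : r < 2 ^ (iδ - 1))
    (hro : r % 2 ^ iγ + 1 = o [])
    (hca : ∀ a ∈ A, a < iγ → cut iγ (c a) = sub o [a])
    (hrK : r ∈ K)
    (hcK : ∀ a ∈ A, ∀ w, c a w ≠ 0 → 2 ^ (iδ - 1) < c a w ∨ c a w - 1 ∈ K)
    (hM : ∀ μ ∈ M, μ < 2 ^ (iδ - 1) ∧ μ ≠ r)
    (hcM : ∀ μ ∈ M, ∀ a ∈ A, ∀ w, c a w ≠ μ + 1) :
    ∃ s : Nm, IsName iδ n s ∧ s [] = r + 1 ∧ (∀ a ∈ A, sub s [a] = c a) ∧ cut iγ s = o ∧
      (∀ w, s w ≠ 0 → w.length + k ≤ n) ∧
      (∀ w, s w ≠ 0 → 2 ^ (iδ - 1) < s w ∨ s w - 1 ∈ K) ∧
      ∀ μ ∈ M, ∀ w, s w ≠ μ + 1 := by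
  obtain ⟨s, hs0, hs1, hs2⟩ := graft_exists (2 ^ (iδ - 1)) r A hA c o
  have hsA : ∀ a ∈ A, ∀ v, s (a :: v) = c a v := by
    intro a ha v
    rw [← hs1 a ha, sub_apply]; rfl
  have hpow : 2 ^ iδ = 2 ^ (iδ - 1) + 2 ^ (iδ - 1) := by
    rw [← two_mul, ← pow_succ']
    congr 1
    omega
  have hpos : 0 < 2 ^ (iδ - 1) := by positivity
  have hle : 2 ^ iγ ≤ 2 ^ (iδ - 1) := Nat.pow_le_pow_right (by norm_num) (by omega)
  have hdvd : 2 ^ iγ ∣ 2 ^ (iδ - 1) := pow_dvd_pow 2 (by omega)
  -- nodes of the lifted part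
  have hlft : ∀ a, a ∉ A → ∀ v, s (a :: v) ≠ 0 → o (a :: v) ≠ 0 ∧
      s (a :: v) = o (a :: v) + 2 ^ (iδ - 1) := by
    intro a ha v hv
    rw [hs2 a ha v] at hv ⊢
    unfold lft at hv ⊢
    by_cases h0 : o (a :: v) = 0
    · exact absurd (if_pos h0) hv
    · rw [if_neg h0]; exact ⟨h0, rfl⟩
  have hheight : ∀ w, s w ≠ 0 → w.length + k ≤ n := by
    intro w hw
    match w, hw with
    | [], _ => simpa using hk
    | a :: v, hw =>
      by_cases ha : a ∈ A
      · rw [hsA a ha] at hw
        have := hck a ha v hw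
        simp only [List.length_cons]
        omega
      · exact hok _ (hlft a ha v hw).1
  refine ⟨s, ⟨by rw [hs0]; exact Nat.succ_ne_zero _, ?_, ?_⟩, hs0, hs1, ?_, hheight, ?_, ?_⟩
  · -- prefix closed
    intro w b hw
    match w, hw with
    | [], _ => rw [hs0]; exact Nat.succ_ne_zero _
    | a :: v, hw =>
      by_cases ha : a ∈ A
      · rw [List.cons_append, hsA a ha] at hw
        rw [hsA a ha]
        exact (hc a ha).2.1 _ _ hw
      · rw [List.cons_append] at hw
        have h1 := (hlft a ha _ hw).1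
        have h2 : o (a :: v) ≠ 0 := ho.2.1 (a :: v) b (by simpa using h1)
        rw [hs2 a ha v]
        unfold lft
        rw [if_neg h2]
        omega
  · intro w hw
    refine ⟨?_, by have := hheight w hw; omega, ?_⟩
    · match w, hw with
      | [], _ => simp
      | a :: v, hw =>
        by_cases ha : a ∈ A
        · rw [hsA a ha] at hw
          intro b hb
          rcases List.mem_cons.1 hb with rfl | hb
          · exact hAi _ ha
          · exact (hc a ha).letters hw b hb
        · intro b hb
          have := ho.letters (hlft a ha v hw).1 b hb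
          omega
    · match w, hw with
      | [], _ => rw [hs0]; omega
      | a :: v, hw =>
        by_cases ha : a ∈ A
        · rw [hsA a ha] at hw ⊢
          exact (hc a ha).le hw
        · obtain ⟨h1, h2⟩ := hlft a ha v hw
          have h3 := ho.le h1
          omega
  · -- cut
    ext w
    match w with
    | [] =>
      rw [cut_apply_of _ _ _ (by rw [hs0]; exact Nat.succ_ne_zero _) (by simp), hs0,
        Nat.add_sub_cancel, hro]
    | a :: v =>
      by_cases hlet : ∀ b ∈ a :: v, b < iγ
      · by_cases ha : a ∈ A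
        · have h1 := hca a ha (hlet a List.mem_cons_self)
          have h2 := DFunLike.congr_fun h1 v
          rw [sub_apply] at h2
          change _ = o (a :: v) at h2
          rw [← h2, cut_apply, cut_apply, hsA a ha]
          have h3 : (∀ b ∈ a :: v, b < iγ) ↔ (∀ b ∈ v, b < iγ) :=
            ⟨fun h b hb => h b (List.mem_cons_of_mem _ hb), fun _ => hlet⟩
          exact if_congr (and_congr Iff.rfl h3) rfl rfl
        · by_cases h0 : o (a :: v) = 0
          · rw [cut_apply, if_neg, h0]
            rintro ⟨h1, _⟩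
            exact (hlft a ha v h1).1 h0
          · have h1 : s (a :: v) ≠ 0 := by
              rw [hs2 a ha v]; unfold lft; rw [if_neg h0]; omega
            have h2 := (hlft a ha v h1).2
            rw [cut_apply_of _ _ _ h1 hlet, h2]
            have h3 := ho.le h0
            obtain ⟨d, hd⟩ := hdvd
            have h4 : o (a :: v) + 2 ^ (iδ - 1) - 1 = (o (a :: v) - 1) + 2 ^ iγ * d := by
              rw [← hd]; omega
            rw [h4, Nat.add_mul_mod_self_left, Nat.mod_eq_of_lt (by omega)]
            omega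
      · rw [cut_apply, if_neg (fun h => hlet h.2)]
        by_contra hcon
        exact hlet (ho.letters (Ne.symm hcon))
  · intro w hw
    match w, hw with
    | [], _ => right; rw [hs0, Nat.add_sub_cancel]; exact hrK
    | a :: v, hw =>
      by_cases ha : a ∈ A
      · rw [hsA a ha] at hw ⊢
        exact hcK a ha v hw
      · left
        obtain ⟨h1, h2⟩ := hlft a ha v hw
        omega
  · intro μ hμ w
    obtain ⟨hμ1, hμ2⟩ := hM μ hμ
    match w with
    | [] => rw [hs0]; omega
    | a :: v =>
      by_cases ha : a ∈ A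
      · rw [hsA a ha]
        exact hcM μ hμ a ha v
      · intro heq
        have hne : s (a :: v) ≠ 0 := by rw [heq]; exact Nat.succ_ne_zero _
        obtain ⟨h1, h2⟩ := hlft a ha v hne
        omega

end Pool.Agent.Helper11.PP
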