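import Pool.Agent.Helper11.PP.Defs
import Pool.Agent.Helper32.PP.Tower

set_option autoImplicit false

/-!
# The transfinite part of MP_505789_lc: definitions and statements
-/

namespace Pool.Agent.Helper11.PP

open Cardinal Filter Set
open Pool.Agent.H32.PP (MAsc CI)

/-- Small subsets of `CI` are strictly bounded. -/
def Bdd : Prop := ∀ S : Set CI, #S < 𝔠 → ∃ b : CI, ∀ a ∈ S, a < b

/-- The base ultrafilter. -/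
structure GoodUF (U : Ultrafilter ℕ) : Prop where
  free : ∀ k : ℕ, ∀ᶠ n in (U : Filter ℕ), k ≤ n
  ppoint : ∀ A : ℕ → Set ℕ, (∀ k, A k ∈ U) → ∃ B ∈ U, ∀ k, (B \ A k).Finite
  sparse : ∀ g : ℕ → ℕ, ∃ S ∈ U, ∀ m ∈ S, ∀ n ∈ S, m < n → g m < n
  sat : ∀ (a : Type) [Countable a] [Nonempty a] (I : Type) (P : I → ℕ → a → Prop), #I < 𝔠 →
    (∀ F : Finset I, ∀ᶠ n in (U : Filter ℕ), ∃ x : a, ∀ i ∈ F, P i n x) →
    ∃ f : ℕ → a, ∀ i, ∀ᶠ n in (U : Filter ℕ), P i n (f n)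

/-- I1: the base ultrafilter exists, and small subsets of `CI` are bounded. -/
def ST_base : Prop := MAsc → Bdd ∧ ∃ U : Ultrafilter ℕ, GoodUF U

/-- I2: multi-variable saturation. -/
def ST_msat : Prop := ∀ U : Ultrafilter ℕ, GoodUF U → ∀ (a : Type) [Countable a] [Nonempty a]
    (V J : Type), #V ≤ 𝔠 → #J < 𝔠 → ∀ (F : J → Finset V) (P : J → ℕ → (V → a) → Prop),
    (∀ j n φ φ', (∀ v ∈ F j, φ v = φ' v) → P j n φ → P j n φ') →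
    (∀ J0 : Finset J, ∀ᶠ n in (U : Filter ℕ), ∃ φ : V → a, ∀ j ∈ J0, P j n φ) →
    ∃ f : V → ℕ → a, ∀ j, ∀ᶠ n in (U : Filter ℕ), P j n (fun v => f v n)

/-- The generic sequence of systems. -/
structure GenSeq (U : Ultrafilter ℕ) (G : ℕ → ℕ → ℕ → ℕ) (CC : CI → ℕ → Set ℕ)
    (PP : CI → ℕ → Finset ℕ → Set ℕ) (p : CI → ℕ → Sys) : Prop where
  valid : ∀ δ, ∀ᶠ n in (U : Filter ℕ), Valid n (p δ n)
  ref : ∀ γ δ, γ < δ → ∀ᶠ n in (U : Filter ℕ), Ref n (p δ n) (p γ n)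
  dbl : ∀ γ δ, γ < δ → ∀ᶠ n in (U : Filter ℕ), 2 * (p γ n).i ≤ (p δ n).i
  large : ∀ δ k, ∀ᶠ n in (U : Filter ℕ), k ≤ (p δ n).i ∧ G k n (p δ n).i ≤ (p δ n).N
  good : ∀ β γ δ, β ≤ γ → γ < δ → ∀ᶠ n in (U : Filter ℕ), ∃ p' : Sys,
    Valid n p' ∧ Ref n (p δ n) p' ∧ Ref n p' (p γ n) ∧ p'.i = (p γ n).i ∧
      Good n p' (CC β n) (PP β n)

/-- I3: the generic sequence exists (uses saturation at each stage, the properties of `G`,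
transitivity and existence of systems). -/
def ST_gen : Prop := ∀ U : Ultrafilter ℕ, GoodUF U → ∀ G : ℕ → ℕ → ℕ → ℕ, IsG G →
    ∀ (CC : CI → ℕ → Set ℕ) (PP : CI → ℕ → Finset ℕ → Set ℕ),
      ∃ p : CI → ℕ → Sys, GenSeq U G CC PP p

/-- Growth conditions on the levels. -/
structure Growth (U : Ultrafilter ℕ) (i : CI → ℕ → ℕ) : Prop where
  dbl : ∀ γ δ, γ < δ → ∀ᶠ n in (U : Filter ℕ), 2 * i γ n ≤ i δ n
  large : ∀ δ k, ∀ᶠ n in (U : Filter ℕ), k ≤ i δ n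

/-- Labels `lam δ a n` and finite sets `K δ a n`. -/
structure Labels (U : Ultrafilter ℕ) {X : Type} (ν : CI → X → CI) (i : CI → ℕ → ℕ)
    (lam : CI → CI → ℕ → ℕ) (K : CI → CI → ℕ → Finset ℕ) : Prop where
  lt : ∀ δ a, ∀ᶠ n in (U : Filter ℕ), lam δ a n < 2 ^ (i δ n - 1)
  card : ∀ δ a k, ∀ᶠ n in (U : Filter ℕ), (K δ a n).card + k ≤ i δ n
  mono : ∀ δ a b, a < b → ∀ᶠ n in (U : Filter ℕ), K δ a n ⊆ K δ b n ∧ lam δ a n ∈ K δ b n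
  nmem : ∀ δ a, ∀ᶠ n in (U : Filter ℕ), lam δ a n ∉ K δ a n
  comp : ∀ γ δ x, γ < δ → ∀ᶠ n in (U : Filter ℕ), lam δ (ν δ x) n % 2 ^ (i γ n) = lam γ (ν γ x) n

/-- Coherence of the class functions: `ν δ x` is the index of the class of `f(x)|δ`. -/
def Coh {X : Type} (ν : CI → X → CI) : Prop :=
  ∀ γ δ x x', γ ≤ δ → ν δ x = ν δ x' → ν γ x = ν γ x'

/-- I4: labels exist (recursion on `δ`, and for each `δ` recursion on `a`). -/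
def ST_labels : Prop := ∀ U : Ultrafilter ℕ, GoodUF U → ∀ (X : Type) (ν : CI → X → CI), Coh ν →
    ∀ i : CI → ℕ → ℕ, Growth U i →
      ∃ (lam : CI → CI → ℕ → ℕ) (K : CI → CI → ℕ → Finset ℕ), Labels U ν i lam K

/-- The closure of `y` under `z ↦ ch z ξ`, `ξ < δ`. -/
def cl {X : Type} (ch : X → CI → X) (δ : CI) (y : X) : Set X :=
  {z | ∃ l : List CI, (∀ ξ ∈ l, ξ < δ) ∧ z = l.foldl ch y}

/-- The conditions on the names `t : X → ℕ → Nm` of level `δ` at the element `y`,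
given the names `old γ` for `γ < δ`. -/
structure LevelOK (U : Ultrafilter ℕ) {X : Type} [PartialOrder X] (ch : X → CI → X)
    (ν : CI → X → CI) (i : CI → ℕ → ℕ) (lam : CI → CI → ℕ → ℕ) (K : CI → CI → ℕ → Finset ℕ)
    (bd : CI → X → CI) (δ : CI) (old : CI → X → ℕ → Nm) (t : X → ℕ → Nm) (y : X) : Prop where
  name : ∀ᶠ n in (U : Filter ℕ), IsName (i δ n) n (t y n)
  root : ∀ᶠ n in (U : Filter ℕ), t y n [] = lam δ (ν δ y) n + 1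
  child : ∀ ξ, ξ < δ → ch y ξ < y → ∀ᶠ n in (U : Filter ℕ), sub (t y n) [i ξ n] = t (ch y ξ) n
  cut : ∀ γ, γ < δ → ∀ᶠ n in (U : Filter ℕ), cut (i γ n) (t y n) = old γ y n
  height : ∀ k : ℕ, ∀ᶠ n in (U : Filter ℕ), ∀ w, t y n w ≠ 0 → w.length + k ≤ n
  conf : ∀ᶠ n in (U : Filter ℕ), ∀ w, t y n w ≠ 0 →
    2 ^ (i δ n - 1) < t y n w ∨ t y n w - 1 ∈ K δ (bd δ y) n
  excl : ∀ μ, μ < bd δ y → (∀ z ∈ cl ch δ y, ν δ z ≠ μ) →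
    ∀ᶠ n in (U : Filter ℕ), ∀ w, t y n w ≠ lam δ μ n + 1

/-- I5: one level.  Given good names at all levels `γ < δ`, names at level `δ` exist. -/
def ST_level : Prop := Bdd → ∀ U : Ultrafilter ℕ, GoodUF U → ∀ (X : Type) [PartialOrder X]
    (ch : X → CI → X), (∀ y ξ, ch y ξ ≤ y) → ∀ (ν : CI → X → CI), Coh ν →
    ∀ i : CI → ℕ → ℕ, Growth U i →
    ∀ (lam : CI → CI → ℕ → ℕ) (K : CI → CI → ℕ → Finset ℕ), Labels U ν i lam K →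
    ∀ bd : CI → X → CI, (∀ δ y, ∀ z ∈ cl ch δ y, ν δ z < bd δ y) →
    (∀ δ y, ∀ z ∈ cl ch δ y, bd δ z ≤ bd δ y) →
    ∀ (δ : CI) (old : CI → X → ℕ → Nm),
      (∀ γ, γ < δ → ∀ y, LevelOK U ch ν i lam K bd γ old (old γ) y) →
      ∃ t : X → ℕ → Nm, ∀ y, LevelOK U ch ν i lam K bd δ old t y

/-- What is needed from the names. -/
structure Naming (U : Ultrafilter ℕ) {X : Type} [PartialOrder X] (ch : X → CI → X)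
    (i : CI → ℕ → ℕ) (s : CI → X → ℕ → Nm) : Prop where
  name : ∀ δ y, ∀ᶠ n in (U : Filter ℕ), IsName (i δ n) n (s δ y n)
  child : ∀ δ y ξ, ξ < δ → ch y ξ < y →
    ∀ᶠ n in (U : Filter ℕ), sub (s δ y n) [i ξ n] = s δ (ch y ξ) n
  cut : ∀ γ δ y, γ < δ → ∀ᶠ n in (U : Filter ℕ), cut (i γ n) (s δ y n) = s γ y n
  sep : ∀ x y, ¬ x ≤ y → ∀ δ₀, ∃ δ, δ₀ ≤ δ ∧
    ∀ᶠ n in (U : Filter ℕ), ∀ w, s δ y n w ≠ 0 → sub (s δ y n) w ≠ s δ x n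

/-- I6: names exist. -/
def ST_names : Prop := MAsc → Bdd → ∀ U : Ultrafilter ℕ, GoodUF U → ∀ (X : Type) [PartialOrder X],
    #X ≤ (2 : Cardinal) ^ 𝔠 → ∀ ch : X → CI → X, (∀ y ξ, ch y ξ ≤ y) →
    ∀ i : CI → ℕ → ℕ, Growth U i → ∃ s : CI → X → ℕ → Nm, Naming U ch i s

/-- The ultrafilters on `ℕ × ℕ` attached to the elements of `X`. -/
structure UFs (U : Ultrafilter ℕ) {X : Type} [PartialOrder X] (ch : X → CI → X)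
    (p : CI → ℕ → Sys) (s : CI → X → ℕ → Nm) (V : X → Ultrafilter (ℕ × ℕ)) : Prop where
  mem : ∀ x (D : Set (ℕ × ℕ)), D ∈ V x ↔
    ∃ δ, ∀ᶠ n in (U : Filter ℕ), ∀ q ∈ Aset (p δ n) (s δ x n), (n, q) ∈ D
  ppoint : ∀ x, ∀ A : ℕ → Set (ℕ × ℕ), (∀ k, A k ∈ V x) → ∃ B ∈ V x, ∀ k, (B \ A k).Finite
  proj : ∀ x, (V x).map Prod.fst = U
  fin : ∀ x, ∃ A ∈ V x, ∀ n, {q | (n, q) ∈ A}.Finite
  rk : ∀ x ξ, ch x ξ < x → ∃ f : ℕ × ℕ → ℕ × ℕ, (V x).map f = V (ch x ξ)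

/-- I7: the ultrafilters. -/
def ST_UFs : Prop := Bdd → ∀ U : Ultrafilter ℕ, GoodUF U → ∀ (X : Type) [PartialOrder X]
    (ch : X → CI → X), (∀ y ξ, ch y ξ ≤ y) → ∀ G : ℕ → ℕ → ℕ → ℕ, IsG G →
    ∀ (CC : CI → ℕ → Set ℕ) (PP : CI → ℕ → Finset ℕ → Set ℕ), (∀ C, ∃ β, CC β = C) →
    ∀ p : CI → ℕ → Sys, GenSeq U G CC PP p →
    ∀ s : CI → X → ℕ → Nm, Naming U ch (fun δ n => (p δ n).i) s →
      ∃ V : X → Ultrafilter (ℕ × ℕ), UFs U ch p s V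

/-- `g` is a cofinal (Tukey) map from `E` to `F`. -/
def TukeyMap {α β : Type} (E : Ultrafilter α) (F : Ultrafilter β) (g : Set α → Set β) : Prop :=
  (∀ A ∈ E, g A ∈ F) ∧ ∀ 𝒳 : Set (Set α), (∀ C ∈ 𝒳, C ∈ E) → (∀ A ∈ E, ∃ C ∈ 𝒳, C ⊆ A) →
    ∀ B ∈ F, ∃ C ∈ 𝒳, g C ⊆ B

/-- I8: the Tukey lemma. -/
def ST_tukey : Prop := ∀ U0 : Ultrafilter ℕ, GoodUF U0 → ∀ U V : Ultrafilter (ℕ × ℕ),
    U.map Prod.fst = U0 → V.map Prod.fst = U0 →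
    (∀ A : ℕ → Set (ℕ × ℕ), (∀ k, A k ∈ U) → ∃ B ∈ U, ∀ k, (B \ A k).Finite) →
    (∀ A : ℕ → Set (ℕ × ℕ), (∀ k, A k ∈ V) → ∃ B ∈ V, ∀ k, (B \ A k).Finite) →
    (∃ A ∈ U, ∀ n, {q | (n, q) ∈ A}.Finite) → (∃ A ∈ V, ∀ n, {q | (n, q) ∈ A}.Finite) →
    ∀ g : Set (ℕ × ℕ) → Set (ℕ × ℕ), TukeyMap U V g →
      ∃ (A0 : Set (ℕ × ℕ)) (ψ : ℕ → Finset ℕ → Set ℕ),
        A0 ∈ U ∧ (∀ n, {q | (n, q) ∈ A0}.Finite) ∧ (∀ n a b, a ⊆ b → ψ n a ⊆ ψ n b) ∧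
        (∀ B : ℕ → Finset ℕ, {z : ℕ × ℕ | z.2 ∈ B z.1} ⊆ A0 → {z : ℕ × ℕ | z.2 ∈ B z.1} ∈ U →
          {z : ℕ × ℕ | z.2 ∈ ψ z.1 (B z.1)} ∈ V) ∧
        (∀ D ∈ V, ∃ B : ℕ → Finset ℕ, {z : ℕ × ℕ | z.2 ∈ B z.1} ∈ U ∧
          {z : ℕ × ℕ | z.2 ∈ B z.1} ⊆ A0 ∧ ∃ k, ∀ n ≥ k, ∀ v ∈ ψ n (B n), (n, v) ∈ D)

/-- I9: no Tukey map for `x ≰ y`. -/
def ST_final : Prop := Bdd → ∀ U : Ultrafilter ℕ, GoodUF U → ∀ (X : Type) [PartialOrder X]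
    (ch : X → CI → X), (∀ y ξ, ch y ξ ≤ y) → ∀ G : ℕ → ℕ → ℕ → ℕ, IsG G →
    ∀ (CC : CI → ℕ → Set ℕ) (PP : CI → ℕ → Finset ℕ → Set ℕ), (∀ C ψ, ∃ β, CC β = C ∧ PP β = ψ) →
    ∀ p : CI → ℕ → Sys, GenSeq U G CC PP p →
    ∀ s : CI → X → ℕ → Nm, Naming U ch (fun δ n => (p δ n).i) s →
    ∀ V : X → Ultrafilter (ℕ × ℕ), UFs U ch p s V →
    ∀ x y, ¬ x ≤ y → ∀ g, ¬ TukeyMap (V y) (V x) g

end Pool.Agent.Helper11.PP
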