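import Pool.Agent.Helper11.PP.Graft
import Pool.Agent.Helper11.PP.Inf

set_option autoImplicit false

/-!
# One level of names: finite satisfiability (module I5, first part)
-/

namespace Pool.Agent.Helper11.PP

open Cardinal Filter Set
open Pool.Agent.H32.PP (MAsc CI)

theorem self_mem_cl {X : Type} (ch : X → CI → X) (δ : CI) (y : X) : y ∈ cl ch δ y :=
  ⟨[], by simp, rfl⟩

theorem cl_trans {X : Type} {ch : X → CI → X} {δ : CI} {y z w : X} (hz : z ∈ cl ch δ y)
    (hw : w ∈ cl ch δ z) : w ∈ cl ch δ y := by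
  obtain ⟨l, hl, rfl⟩ := hz
  obtain ⟨l', hl', rfl⟩ := hw
  refine ⟨l ++ l', ?_, by rw [List.foldl_append]⟩
  intro ξ hξ
  rcases List.mem_append.1 hξ with h | h
  · exact hl ξ h
  · exact hl' ξ h

theorem ch_mem_cl {X : Type} (ch : X → CI → X) {δ : CI} (y : X) {ξ : CI} (hξ : ξ < δ) :
    ch y ξ ∈ cl ch δ y :=
  ⟨[ξ], by simpa using hξ, rfl⟩

section

variable (U : Ultrafilter ℕ) {X : Type} [PartialOrder X] (ch : X → CI → X) (ν : CI → X → CI)
  (i : CI → ℕ → ℕ) (lam : CI → CI → ℕ → ℕ) (K : CI → CI → ℕ → Finset ℕ) (bd : CI → X → CI)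
  (δ : CI)

/-- Conditions on the old names. -/
structure OldOK (t0 : X → ℕ → Nm) (Z : Set X) (iγ : ℕ → ℕ) (o : X → ℕ → Nm) : Prop where
  name : ∀ y, ∀ᶠ n in (U : Filter ℕ), IsName (iγ n) n (o y n)
  height : ∀ y (k : ℕ), ∀ᶠ n in (U : Filter ℕ), ∀ w, o y n w ≠ 0 → w.length + k ≤ n
  lt : ∀ᶠ n in (U : Filter ℕ), iγ n + 1 ≤ i δ n
  root : ∀ y, ∀ᶠ n in (U : Filter ℕ), lam δ (ν δ y) n % 2 ^ (iγ n) + 1 = o y n []
  child : ∀ y ξ, ξ < δ → ch y ξ < y →
    ∀ᶠ n in (U : Filter ℕ), i ξ n < iγ n → sub (o y n) [i ξ n] = o (ch y ξ) n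
  old : ∀ z ∈ Z, ∀ᶠ n in (U : Filter ℕ), cut (iγ n) (t0 z n) = o z n

/-- Conditions in one cell. -/
structure CellOK (n iγ : ℕ) (o : X → Nm) (k : ℕ) (M : Finset CI) (y : X) (s : Nm) : Prop where
  name : IsName (i δ n) n s
  root : s [] = lam δ (ν δ y) n + 1
  height : ∀ w, s w ≠ 0 → w.length + k ≤ n
  cut : cut iγ s = o y
  conf : ∀ w, s w ≠ 0 → 2 ^ (i δ n - 1) < s w ∨ s w - 1 ∈ K δ (bd δ y) n
  excl : ∀ μ ∈ M, (∀ z ∈ cl ch δ y, ν δ z ≠ μ) → ∀ w, s w ≠ lam δ μ n + 1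

variable {U ch ν i lam K bd δ}

theorem CellOK.mono {n iγ : ℕ} {o : X → Nm} {k k' : ℕ} {M : Finset CI} {y : X} {s : Nm}
    (h : CellOK ch ν i lam K bd δ n iγ o k M y s) (hk : k' ≤ k) :
    CellOK ch ν i lam K bd δ n iγ o k' M y s :=
  ⟨h.name, h.root, fun w hw => by have := h.height w hw; omega, h.cut, h.conf, h.excl⟩

theorem lam_ne (hL : Labels U ν i lam K) {a b : CI} (hab : a ≠ b) :
    ∀ᶠ n in (U : Filter ℕ), lam δ a n ≠ lam δ b n := by
  have key : ∀ a b : CI, a < b → ∀ᶠ n in (U : Filter ℕ), lam δ a n ≠ lam δ b n := by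
    intro a b h
    filter_upwards [hL.mono δ a b h, hL.nmem δ b] with n h1 h2 h3
    exact h2 (h3 ▸ h1.2)
  rcases lt_or_gt_of_ne hab with h | h
  · exact key a b h
  · filter_upwards [key b a h] with n h1 h2
    exact h1 h2.symm

theorem K_sub (hL : Labels U ν i lam K) {a b : CI} (hab : a ≤ b) :
    ∀ᶠ n in (U : Filter ℕ), K δ a n ⊆ K δ b n := by
  rcases hab.lt_or_eq with h | h
  · filter_upwards [hL.mono δ a b h] with n h1
    exact h1.1
  · subst h
    exact Filter.Eventually.of_forall fun n => Finset.Subset.refl _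

/-- Exactness: labels of classes outside the closure do not occur. -/
theorem exact_of_levelOK (hL : Labels U ν i lam K) {old : CI → X → ℕ → Nm} {t : X → ℕ → Nm}
    {y : X} (h : LevelOK U ch ν i lam K bd δ old t y) {μ : CI} (hμ : ∀ z ∈ cl ch δ y, ν δ z ≠ μ) :
    ∀ᶠ n in (U : Filter ℕ), ∀ w, t y n w ≠ lam δ μ n + 1 := by
  rcases lt_or_ge μ (bd δ y) with h1 | h1
  · exact h.excl μ h1 hμ
  · filter_upwards [h.conf, K_sub (δ := δ) hL h1, hL.nmem δ μ, hL.lt δ μ] with n h2 h3 h4 h5 w h6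
    have h7 : t y n w ≠ 0 := by rw [h6]; exact Nat.succ_ne_zero _
    rcases h2 w h7 with h8 | h8
    · omega
    · rw [h6, Nat.add_sub_cancel] at h8
      exact h4 (h3 h8)

theorem cellOK_of_levelOK (hL : Labels U ν i lam K) {old : CI → X → ℕ → Nm} {t : X → ℕ → Nm}
    {Z : Set X} {iγ : ℕ → ℕ} {o : X → ℕ → Nm} (hO : OldOK U ch ν i lam δ t Z iγ o)
    {z : X} (hz : z ∈ Z) (h : LevelOK U ch ν i lam K bd δ old t z) (k : ℕ) (M : Finset CI) :
    ∀ᶠ n in (U : Filter ℕ), CellOK ch ν i lam K bd δ n (iγ n) (fun y => o y n) k M z (t z n) := by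
  have h1 : ∀ᶠ n in (U : Filter ℕ), ∀ μ ∈ M, (∀ z' ∈ cl ch δ z, ν δ z' ≠ μ) →
      ∀ w, t z n w ≠ lam δ μ n + 1 := by
    rw [Filter.eventually_all_finset]
    intro μ _
    by_cases hμ : ∀ z' ∈ cl ch δ z, ν δ z' ≠ μ
    · filter_upwards [exact_of_levelOK hL h hμ] with n hn _
      exact hn
    · exact Filter.Eventually.of_forall fun n h2 => absurd h2 hμ
  filter_upwards [h.name, h.root, h.height k, hO.old z hz, h.conf, h1] with n a1 a2 a3 a4 a5 a6
  exact ⟨a1, a2, a3, a4, a5, a6⟩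

/-- Finite satisfiability. -/
theorem finsat (hU : GoodUF U) (hG : Growth U i) (hL : Labels U ν i lam K)
    (hbd1 : ∀ y, ∀ z ∈ cl ch δ y, ν δ z < bd δ y)
    (hbd2 : ∀ y, ∀ z ∈ cl ch δ y, bd δ z ≤ bd δ y)
    {old : CI → X → ℕ → Nm} {t0 : X → ℕ → Nm} {Z : Set X}
    (hZ : ∀ z ∈ Z, LevelOK U ch ν i lam K bd δ old t0 z)
    {iγ : ℕ → ℕ} {o : X → ℕ → Nm} (hO : OldOK U ch ν i lam δ t0 Z iγ o)
    (M : Finset CI) :
    ∀ (m : ℕ) (Y : Finset X), Y.card = m → (∀ y ∈ Y, y ∉ Z) → ∀ E : Finset (X × CI),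
      (∀ e ∈ E, e.1 ∈ Y ∧ e.2 < δ ∧ ch e.1 e.2 < e.1 ∧ (ch e.1 e.2 ∈ Y ∨ ch e.1 e.2 ∈ Z)) →
      ∀ k : ℕ, ∀ᶠ n in (U : Filter ℕ), ∃ φ : X → Nm, (∀ y, y ∉ Y → φ y = t0 y n) ∧
        (∀ y ∈ Y, CellOK ch ν i lam K bd δ n (iγ n) (fun z => o z n) k M y (φ y)) ∧
        ∀ e ∈ E, sub (φ e.1) [i e.2 n] = φ (ch e.1 e.2) := by
  classical
  intro m
  induction m with
  | zero =>
    intro Y hY _ E hE k
    rw [Finset.card_eq_zero] at hY
    subst hY
    refine Filter.Eventually.of_forall fun n => ⟨fun y => t0 y n, fun _ _ => rfl, ?_, ?_⟩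
    · intro y hy; exact absurd hy (Finset.notMem_empty _)
    · intro e he; exact absurd (hE e he).1 (Finset.notMem_empty _)
  | succ m ih =>
    intro Y hY hYZ E hE k
    have hne : Y.Nonempty := by
      rw [← Finset.card_pos, hY]; exact Nat.succ_pos _
    obtain ⟨y, hymax⟩ := Finset.exists_maximal hne
    have hy : y ∈ Y := hymax.prop
    have hmax : ∀ z ∈ Y, ¬ y < z := fun z hz hlt => hymax.not_gt hz hlt
    have hnc : ∀ e ∈ E, ch e.1 e.2 ≠ y := by
      intro e he heq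
      have h1 := (hE e he).2.2.1
      rw [heq] at h1
      exact hmax _ (hE e he).1 h1
    set Y' := Y.erase y with hY'
    set E' := E.filter (fun e => e.1 ≠ y) with hE'
    have hcard : Y'.card = m := by rw [hY', Finset.card_erase_of_mem hy, hY]; rfl
    have h1 := ih Y' hcard (fun z hz => hYZ z (Finset.mem_of_mem_erase hz)) E' (by
      intro e he
      rw [hE', Finset.mem_filter] at he
      obtain ⟨a1, a2, a3, a4⟩ := hE e he.1
      refine ⟨Finset.mem_erase.2 ⟨he.2, a1⟩, a2, a3, ?_⟩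
      rcases a4 with a4 | a4
      · exact Or.inl (Finset.mem_erase.2 ⟨hnc e he.1, a4⟩)
      · exact Or.inr a4) (k + 1)
    -- facts about the letters
    have h2 : ∀ᶠ n in (U : Filter ℕ), ∀ e ∈ E, i e.2 n < i δ n := by
      rw [Filter.eventually_all_finset]
      intro e he
      filter_upwards [hG.dbl e.2 δ (hE e he).2.1, hG.large e.2 1] with n b1 b2
      omega
    have h3 : ∀ᶠ n in (U : Filter ℕ), ∀ e ∈ E, ∀ e' ∈ E, e.2 ≠ e'.2 → i e.2 n ≠ i e'.2 n := by
      rw [Filter.eventually_all_finset]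
      intro e he
      rw [Filter.eventually_all_finset]
      intro e' he'
      by_cases heq : e.2 = e'.2
      · exact Filter.Eventually.of_forall fun n hn => absurd heq hn
      · rcases lt_or_gt_of_ne heq with h | h
        · filter_upwards [hG.dbl _ _ h, hG.large e.2 1] with n b1 b2 _
          omega
        · filter_upwards [hG.dbl _ _ h, hG.large e'.2 1] with n b1 b2 _
          omega
    -- children from Z
    have h4 : ∀ᶠ n in (U : Filter ℕ), ∀ e ∈ E, ch e.1 e.2 ∈ Z →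
        CellOK ch ν i lam K bd δ n (iγ n) (fun z => o z n) (k + 1) M (ch e.1 e.2)
          (t0 (ch e.1 e.2) n) := by
      rw [Filter.eventually_all_finset]
      intro e he
      by_cases hz : ch e.1 e.2 ∈ Z
      · filter_upwards [cellOK_of_levelOK hL hO hz (hZ _ hz) (k + 1) M] with n hn _
        exact hn
      · exact Filter.Eventually.of_forall fun n hn => absurd hn hz
    have h5 : ∀ᶠ n in (U : Filter ℕ), ∀ e ∈ E, e.1 = y →
        (i e.2 n < iγ n → sub (o y n) [i e.2 n] = o (ch y e.2) n) ∧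
        K δ (bd δ (ch y e.2)) n ⊆ K δ (bd δ y) n := by
      rw [Filter.eventually_all_finset]
      intro e he
      by_cases hey : e.1 = y
      · obtain ⟨a1, a2, a3, a4⟩ := hE e he
        rw [hey] at a3
        filter_upwards [hO.child y e.2 a2 a3,
          K_sub (δ := δ) hL (hbd2 y _ (ch_mem_cl ch y a2))] with n b1 b2 _
        exact ⟨b1, b2⟩
      · exact Filter.Eventually.of_forall fun n hn => absurd hn hey
    have h6 : ∀ᶠ n in (U : Filter ℕ), ∀ μ ∈ M, (∀ z ∈ cl ch δ y, ν δ z ≠ μ) →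
        lam δ μ n < 2 ^ (i δ n - 1) ∧ lam δ μ n ≠ lam δ (ν δ y) n := by
      rw [Filter.eventually_all_finset]
      intro μ _
      by_cases hμ : ∀ z ∈ cl ch δ y, ν δ z ≠ μ
      · have h7 : μ ≠ ν δ y := fun h => hμ y (self_mem_cl ch δ y) h.symm
        filter_upwards [hL.lt δ μ, lam_ne (δ := δ) hL h7] with n b1 b2 _
        exact ⟨b1, b2⟩
      · exact Filter.Eventually.of_forall fun n hn => absurd hn hμ
    have h7 : ∀ᶠ n in (U : Filter ℕ), lam δ (ν δ y) n ∈ K δ (bd δ y) n := by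
      filter_upwards [hL.mono δ _ _ (hbd1 y y (self_mem_cl ch δ y))] with n hn
      exact hn.2
    filter_upwards [h1, h2, h3, h4, h5, h6, h7, hU.free k, hO.name y, hO.height y k, hO.lt,
      hO.root y, hL.lt δ (ν δ y)] with n b1 b2 b3 b4 b5 b6 b7 b8 b9 b10 b11 b12 b13
    obtain ⟨φ', c1, c2, c3⟩ := b1
    -- children of y
    have hch : ∀ e ∈ E, e.1 = y →
        CellOK ch ν i lam K bd δ n (iγ n) (fun z => o z n) (k + 1) M (ch y e.2)
          (φ' (ch y e.2)) := by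
      intro e he hey
      obtain ⟨a1, a2, a3, a4⟩ := hE e he
      have hn := hnc e he
      rw [hey] at a3 a4 hn
      rcases a4 with a4 | a4
      · exact c2 _ (Finset.mem_erase.2 ⟨hn, a4⟩)
      · rw [c1 _ (fun hmem => hYZ _ (Finset.mem_of_mem_erase hmem) a4)]
        have := b4 e he (by rw [hey]; exact a4)
        rwa [hey] at this
    let A : Set ℕ := {a | ∃ e ∈ E, e.1 = y ∧ i e.2 n = a}
    have hA : A.Finite := by
      refine (E.finite_toSet.image (fun e => i e.2 n)).subset ?_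
      rintro a ⟨e, he, _, rfl⟩
      exact ⟨e, he, rfl⟩
    let c : ℕ → Nm := fun a =>
      if h : ∃ e ∈ E, e.1 = y ∧ i e.2 n = a then φ' (ch y h.choose.2) else 0
    have hc : ∀ e ∈ E, e.1 = y → c (i e.2 n) = φ' (ch y e.2) := by
      intro e he hey
      have hex : ∃ e' ∈ E, e'.1 = y ∧ i e'.2 n = i e.2 n := ⟨e, he, hey, rfl⟩
      have h8 : c (i e.2 n) = φ' (ch y hex.choose.2) := dif_pos hex
      have h9 := hex.choose_spec
      have h10 : hex.choose.2 = e.2 := by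
        by_contra hcon
        exact b3 _ h9.1 e he hcon h9.2.2
      rw [h8, h10]
    have hcA : ∀ a ∈ A, ∃ e ∈ E, e.1 = y ∧ i e.2 n = a ∧ c a = φ' (ch y e.2) := by
      rintro a ⟨e, he, hey, rfl⟩
      exact ⟨e, he, hey, rfl, hc e he hey⟩
    let M' : Set ℕ := {m' | ∃ μ ∈ M, (∀ z ∈ cl ch δ y, ν δ z ≠ μ) ∧ m' = lam δ μ n}
    obtain ⟨s, d1, d2, d3, d4, d5, d6, d7⟩ := graft (i δ n) (iγ n) n k (lam δ (ν δ y) n) A hA c
      (o y n) (K δ (bd δ y) n) M' b11
      (by
        rintro a ⟨e, he, hey, rfl⟩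
        exact b2 e he)
      (by
        intro a ha
        obtain ⟨e, he, hey, rfl, h8⟩ := hcA a ha
        rw [h8]; exact (hch e he hey).name)
      (by
        intro a ha
        obtain ⟨e, he, hey, rfl, h8⟩ := hcA a ha
        rw [h8]; exact (hch e he hey).height)
      b8 b9 b10 b13 b12
      (by
        intro a ha halt
        obtain ⟨e, he, hey, rfl, h8⟩ := hcA a ha
        rw [h8, (hch e he hey).cut, (b5 e he hey).1 halt])
      b7
      (by
        intro a ha w hw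
        obtain ⟨e, he, hey, rfl, h8⟩ := hcA a ha
        rw [h8] at hw ⊢
        rcases (hch e he hey).conf w hw with h9 | h9
        · exact Or.inl h9
        · exact Or.inr ((b5 e he hey).2 h9))
      (by
        rintro m' ⟨μ, hμ, hμ', rfl⟩
        exact b6 μ hμ hμ')
      (by
        rintro m' ⟨μ, hμ, hμ', rfl⟩ a ha w
        obtain ⟨e, he, hey, rfl, h8⟩ := hcA a ha
        rw [h8]
        refine (hch e he hey).excl μ hμ (fun z hz => hμ' z ?_) w
        exact cl_trans (ch_mem_cl ch y (hE e he).2.1) hz)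
    refine ⟨Function.update φ' y s, fun z hz => ?_, fun z hz => ?_, fun e he => ?_⟩
    · have hzy : z ≠ y := fun h => hz (h ▸ hy)
      rw [Function.update_of_ne hzy]
      exact c1 z (fun hmem => hz (Finset.mem_of_mem_erase hmem))
    · by_cases hzy : z = y
      · subst hzy
        rw [Function.update_self]
        refine ⟨d1, d2, d5, d4, d6, fun μ hμ hμ' w => ?_⟩
        exact d7 _ ⟨μ, hμ, hμ', rfl⟩ w
      · rw [Function.update_of_ne hzy]
        exact (c2 z (Finset.mem_erase.2 ⟨hzy, hz⟩)).mono (Nat.le_succ k)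
    · rw [Function.update_of_ne (hnc e he)]
      by_cases hey : e.1 = y
      · rw [hey, Function.update_self, d3 _ ⟨e, he, hey, rfl⟩, hc e he hey]
      · rw [Function.update_of_ne hey]
        exact c3 e (Finset.mem_filter.2 ⟨he, hey⟩)

end

end Pool.Agent.Helper11.PP
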