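import Pool.Agent.Helper11.PP.Level

set_option autoImplicit false

/-!
# One level of names: saturation and recursion over `X` (module I5)
-/

namespace Pool.Agent.Helper11.PP

open Cardinal Filter Set
open Pool.Agent.H32.PP (MAsc CI)

theorem mk_cl_lt {X : Type} (ch : X → CI → X) (δ : CI) (y : X) : #(cl ch δ y) < 𝔠 := by
  have h1 : cl ch δ y ⊆ Set.range (fun l : List (Set.Iio δ) => (l.map Subtype.val).foldl ch y) := by
    rintro _ ⟨l, hl, rfl⟩
    refine ⟨l.pmap (fun a ha => ⟨a, ha⟩) hl, ?_⟩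
    simp only [List.map_pmap]
    simp
  refine (Cardinal.mk_le_mk_of_subset h1).trans_lt (Cardinal.mk_range_le.trans_lt ?_)
  refine (Cardinal.mk_list_le_max _).trans_lt ?_
  exact max_lt Cardinal.aleph0_lt_continuum (Pool.Agent.H32.PP.mk_Iio_CI δ)

section

variable {U : Ultrafilter ℕ} {X : Type} [PartialOrder X] {ch : X → CI → X} {ν : CI → X → CI}
  {i : CI → ℕ → ℕ} {lam : CI → CI → ℕ → ℕ} {K : CI → CI → ℕ → Finset ℕ} {bd : CI → X → CI}
  {δ : CI}

theorem LevelOK.congr {old : CI → X → ℕ → Nm} {t t' : X → ℕ → Nm} {y : X}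
    (h : LevelOK U ch ν i lam K bd δ old t y) (h1 : t' y = t y)
    (h2 : ∀ ξ, ξ < δ → t' (ch y ξ) = t (ch y ξ)) : LevelOK U ch ν i lam K bd δ old t' y := by
  refine ⟨?_, ?_, ?_, ?_, ?_, ?_, ?_⟩
  · rw [h1]; exact h.name
  · rw [h1]; exact h.root
  · intro ξ hξ hlt
    rw [h1, h2 ξ hξ]; exact h.child ξ hξ hlt
  · rw [h1]; exact h.cut
  · rw [h1]; exact h.height
  · rw [h1]; exact h.conf
  · rw [h1]; exact h.excl

theorem cut_zero_of_name {i h : ℕ} {s : Nm} (hs : IsName i h s) :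
    cut 0 s = Finsupp.single [] 1 := by
  ext w
  match w with
  | [] =>
    rw [cut_apply_of _ _ _ hs.1 (by simp)]
    simp [Nat.mod_one]
  | a :: v =>
    rw [cut_apply, if_neg (by
      rintro ⟨_, h⟩
      exact absurd (h a List.mem_cons_self) (Nat.not_lt_zero _))]
    simp

theorem old_exists (hU : GoodUF U) (hG : Growth U i) (hL : Labels U ν i lam K)
    {old : CI → X → ℕ → Nm}
    (hold : ∀ γ, γ < δ → ∀ y, LevelOK U ch ν i lam K bd γ old (old γ) y)
    {t0 : X → ℕ → Nm} {Z : Set X} (hZ : ∀ z ∈ Z, LevelOK U ch ν i lam K bd δ old t0 z)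
    (Γ : Finset CI) (hΓ : ∀ γ ∈ Γ, γ < δ) :
    ∃ (iγ : ℕ → ℕ) (o : X → ℕ → Nm), OldOK U ch ν i lam δ t0 Z iγ o ∧
      ∀ γ ∈ Γ, ∀ y, ∀ᶠ n in (U : Filter ℕ), i γ n ≤ iγ n ∧ cut (i γ n) (o y n) = old γ y n := by
  rcases Γ.eq_empty_or_nonempty with rfl | hne
  · refine ⟨fun _ => 0, fun _ _ => Finsupp.single [] 1, ⟨?_, ?_, ?_, ?_, ?_, ?_⟩, ?_⟩
    · intro y
      refine Filter.Eventually.of_forall fun n => ⟨by simp, ?_, ?_⟩
      · intro w a hw
        exfalso
        apply hw
        rw [Finsupp.single_apply, if_neg]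
        simp
      · intro w hw
        have : w = [] := by
          by_contra hcon
          apply hw
          rw [Finsupp.single_apply, if_neg (Ne.symm hcon)]
        subst this
        simp
    · intro y k
      filter_upwards [hU.free k] with n hn w hw
      have : w = [] := by
        by_contra hcon
        apply hw
        rw [Finsupp.single_apply, if_neg (Ne.symm hcon)]
      subst this
      simpa using hn
    · filter_upwards [hG.large δ 1] with n hn
      simpa using hn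
    · intro y
      refine Filter.Eventually.of_forall fun n => ?_
      simp [Nat.mod_one]
    · intro y ξ _ _
      refine Filter.Eventually.of_forall fun n hn => absurd hn (Nat.not_lt_zero _)
    · intro z hz
      filter_upwards [(hZ z hz).name] with n hn
      exact cut_zero_of_name hn
    · intro γ hγ; exact absurd hγ (Finset.notMem_empty _)
  · set g := Γ.max' hne with hg
    have hgδ : g < δ := hΓ g (Γ.max'_mem hne)
    refine ⟨i g, old g, ⟨?_, ?_, ?_, ?_, ?_, ?_⟩, ?_⟩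
    · intro y; exact (hold g hgδ y).name
    · intro y k; exact (hold g hgδ y).height k
    · filter_upwards [hG.dbl g δ hgδ, hG.large g 1] with n h1 h2
      omega
    · intro y
      filter_upwards [(hold g hgδ y).root, hL.comp g δ y hgδ] with n h1 h2
      rw [h1, h2]
    · intro y ξ hξ hlt
      rcases lt_or_ge ξ g with h | h
      · filter_upwards [(hold g hgδ y).child ξ h hlt] with n hn _
        exact hn
      · have h3 : ∀ᶠ n in (U : Filter ℕ), i g n ≤ i ξ n := by
          rcases h.lt_or_eq with h | h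
          · filter_upwards [hG.dbl g ξ h] with n hn
            omega
          · rw [h]; exact Filter.Eventually.of_forall fun n => le_rfl
        filter_upwards [h3] with n h4 h5
        omega
    · intro z hz
      exact (hZ z hz).cut g hgδ
    · intro γ hγ y
      have h1 : γ ≤ g := Γ.le_max' γ hγ
      rcases h1.lt_or_eq with h | h
      · filter_upwards [hG.dbl γ g h, (hold g hgδ y).cut γ h] with n h2 h3
        exact ⟨by omega, h3⟩
      · rw [h]
        filter_upwards [(hold g hgδ y).name] with n h2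
        exact ⟨le_rfl, cut_of_name h2⟩

/-- Index type of the conditions at one variable. -/
abbrev Cnd (δ b : CI) : Type := Fin 3 ⊕ (Set.Iio δ ⊕ (Set.Iio δ ⊕ (ℕ ⊕ Set.Iio b)))

theorem mk_Cnd_lt (δ b : CI) : #(Cnd δ b) < 𝔠 := by
  have h0 := Cardinal.aleph0_le_continuum
  have h1 := Pool.Agent.H32.PP.mk_Iio_CI δ
  have h2 := Pool.Agent.H32.PP.mk_Iio_CI b
  simp only [Cnd, Cardinal.mk_sum, Cardinal.lift_id]
  refine Cardinal.add_lt_of_lt h0 ?_ (Cardinal.add_lt_of_lt h0 h1 (Cardinal.add_lt_of_lt h0 h1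
    (Cardinal.add_lt_of_lt h0 ?_ h2)))
  · rw [Cardinal.mk_fin]
    exact (Cardinal.natCast_lt_aleph0 (n := 3)).trans Cardinal.aleph0_lt_continuum
  · rw [Cardinal.mk_nat]; exact Cardinal.aleph0_lt_continuum

/-- The new elements. -/
abbrev Var (ch : X → CI → X) (δ : CI) (Z : Set X) (x : X) : Type :=
  {y : X // y ∈ cl ch δ x ∧ y ∉ Z}

theorem mk_Var_lt (Z : Set X) (x : X) : #(Var ch δ Z x) < 𝔠 := by
  refine lt_of_le_of_lt ?_ (mk_cl_lt ch δ x)
  exact Cardinal.mk_le_of_injective (f := fun v : Var ch δ Z x => (⟨v.1, v.2.1⟩ : cl ch δ x))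
    (by
      rintro ⟨a, ha⟩ ⟨b, hb⟩ h
      simp only [Subtype.mk.injEq] at h
      subst h; rfl)

/-- The names on all of `X` given the values on the variables. -/
noncomputable def extd (ch : X → CI → X) (δ : CI) (Z : Set X) (x : X) (t0 : X → Nm)
    (φ : Var ch δ Z x → Nm) : X → Nm := by
  classical
  exact fun y => if h : y ∈ cl ch δ x ∧ y ∉ Z then φ ⟨y, h⟩ else t0 y

theorem extd_of {Z : Set X} {x : X} {t0 : X → Nm} {φ : Var ch δ Z x → Nm} {y : X}
    (h : y ∈ cl ch δ x ∧ y ∉ Z) : extd ch δ Z x t0 φ y = φ ⟨y, h⟩ := by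
  unfold extd; exact dif_pos h

theorem extd_not {Z : Set X} {x : X} {t0 : X → Nm} {φ : Var ch δ Z x → Nm} {y : X}
    (h : ¬ (y ∈ cl ch δ x ∧ y ∉ Z)) : extd ch δ Z x t0 φ y = t0 y := by
  unfold extd; exact dif_neg h

variable (ν i lam K bd) in
/-- The conditions. -/
def PP (ch : X → CI → X) (δ : CI) (Z : Set X) (x : X) (b : CI) (old : CI → X → ℕ → Nm)
    (t0 : X → ℕ → Nm) (j : Var ch δ Z x × Cnd δ b) (n : ℕ) (φ : Var ch δ Z x → Nm) : Prop :=
  match j.2 with
  | Sum.inl 0 => IsName (i δ n) n (φ j.1)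
  | Sum.inl 1 => φ j.1 [] = lam δ (ν δ j.1.1) n + 1
  | Sum.inl 2 => ∀ w, φ j.1 w ≠ 0 → 2 ^ (i δ n - 1) < φ j.1 w ∨ φ j.1 w - 1 ∈ K δ (bd δ j.1.1) n
  | Sum.inr (Sum.inl ξ) => ch j.1.1 ξ.1 < j.1.1 →
      sub (φ j.1) [i ξ.1 n] = extd ch δ Z x (fun y => t0 y n) φ (ch j.1.1 ξ.1)
  | Sum.inr (Sum.inr (Sum.inl γ)) => cut (i γ.1 n) (φ j.1) = old γ.1 j.1.1 n
  | Sum.inr (Sum.inr (Sum.inr (Sum.inl k))) => ∀ w, φ j.1 w ≠ 0 → w.length + k ≤ n
  | Sum.inr (Sum.inr (Sum.inr (Sum.inr μ))) => (∀ z ∈ cl ch δ j.1.1, ν δ z ≠ μ.1) →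
      ∀ w, φ j.1 w ≠ lam δ μ.1 n + 1

/-- The variables occurring in a condition. -/
noncomputable def FF (ch : X → CI → X) (δ : CI) (Z : Set X) (x : X) (b : CI)
    (j : Var ch δ Z x × Cnd δ b) : Finset (Var ch δ Z x) := by
  classical
  exact insert j.1 (match j.2 with
    | Sum.inr (Sum.inl ξ) => if h : ch j.1.1 ξ.1 ∈ cl ch δ x ∧ ch j.1.1 ξ.1 ∉ Z then
        {⟨ch j.1.1 ξ.1, h⟩} else ∅
    | _ => ∅)

theorem PP_dep {Z : Set X} {x : X} {b : CI} {old : CI → X → ℕ → Nm} {t0 : X → ℕ → Nm}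
    (j : Var ch δ Z x × Cnd δ b) (n : ℕ) (φ φ' : Var ch δ Z x → Nm)
    (h : ∀ v ∈ FF ch δ Z x b j, φ v = φ' v)
    (hP : PP ν i lam K bd ch δ Z x b old t0 j n φ) : PP ν i lam K bd ch δ Z x b old t0 j n φ' := by
  classical
  have h0 : φ j.1 = φ' j.1 := h _ (by unfold FF; exact Finset.mem_insert_self _ _)
  obtain ⟨v, c⟩ := j
  rcases c with c | c | c | c | c
  · have hc : c = 0 ∨ c = 1 ∨ c = 2 := by
      have := c.2
      rcases c with ⟨c, hc⟩
      interval_cases c
      · left; rfl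
      · right; left; rfl
      · right; right; rfl
    rcases hc with rfl | rfl | rfl
    · simp only [PP] at hP ⊢
      simp only at h0
      rw [← h0]; exact hP
    · simp only [PP] at hP ⊢
      simp only at h0
      rw [← h0]; exact hP
    · simp only [PP] at hP ⊢
      simp only at h0
      rw [← h0]; exact hP
  · simp only [PP] at hP ⊢
    simp only at h0
    rw [← h0]
    intro hlt
    rw [hP hlt]
    by_cases hc : ch v.1 c.1 ∈ cl ch δ x ∧ ch v.1 c.1 ∉ Z
    · rw [extd_of hc, extd_of hc]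
      apply h
      unfold FF
      simp only
      rw [dif_pos hc]
      exact Finset.mem_insert_of_mem (Finset.mem_singleton_self _)
    · rw [extd_not hc, extd_not hc]
  · simp only [PP] at hP ⊢
    simp only at h0
    rw [← h0]; exact hP
  · simp only [PP] at hP ⊢
    simp only at h0
    rw [← h0]; exact hP
  · simp only [PP] at hP ⊢
    simp only at h0
    rw [← h0]; exact hP

end

end Pool.Agent.Helper11.PP
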