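import Pool.Agent.Helper11.PP.Level2

set_option autoImplicit false

/-!
# One level of names: extension step and recursion over `X` (module I5)
-/

namespace Pool.Agent.Helper11.PP

open Cardinal Filter Set
open Pool.Agent.H32.PP (MAsc CI)

section

variable {U : Ultrafilter ℕ} {X : Type} [PartialOrder X] {ch : X → CI → X} {ν : CI → X → CI}
  {i : CI → ℕ → ℕ} {lam : CI → CI → ℕ → ℕ} {K : CI → CI → ℕ → Finset ℕ} {bd : CI → X → CI}
  {δ : CI}

theorem extend_step (hms : ST_msat) (hU : GoodUF U) (hG : Growth U i) (hL : Labels U ν i lam K)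
    (hbd1 : ∀ y, ∀ z ∈ cl ch δ y, ν δ z < bd δ y)
    (hbd2 : ∀ y, ∀ z ∈ cl ch δ y, bd δ z ≤ bd δ y)
    {old : CI → X → ℕ → Nm}
    (hold : ∀ γ, γ < δ → ∀ y, LevelOK U ch ν i lam K bd γ old (old γ) y)
    {t0 : X → ℕ → Nm} {Z : Set X} (hZcl : ∀ z ∈ Z, ∀ ξ, ξ < δ → ch z ξ ∈ Z)
    (hZ : ∀ z ∈ Z, LevelOK U ch ν i lam K bd δ old t0 z) (x : X) :
    ∃ t1 : X → ℕ → Nm, (∀ z ∈ Z, t1 z = t0 z) ∧
      ∀ y, (y ∈ Z ∨ y ∈ cl ch δ x) → LevelOK U ch ν i lam K bd δ old t1 y := by
  classical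
  set b := bd δ x with hb
  have hV : #(Var ch δ Z x) < 𝔠 := mk_Var_lt Z x
  have hJ : #(Var ch δ Z x × Cnd δ b) < 𝔠 := by
    rw [Cardinal.mk_prod, Cardinal.lift_id, Cardinal.lift_id]
    exact Cardinal.mul_lt_of_lt Cardinal.aleph0_le_continuum hV (mk_Cnd_lt δ b)
  obtain ⟨f, hf⟩ := hms U hU Nm (Var ch δ Z x) (Var ch δ Z x × Cnd δ b) hV.le hJ
    (FF ch δ Z x b) (PP ν i lam K bd ch δ Z x b old t0) (fun j n φ φ' => PP_dep j n φ φ') (by
    -- finite satisfiability
    intro J0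
    -- the indices of cut conditions
    let Γ : Finset CI := (J0.image (fun j => match j.2 with
      | Sum.inr (Sum.inr (Sum.inl γ)) => ({γ.1} : Finset CI)
      | _ => ∅)).biUnion id
    have hΓmem : ∀ v (γ : Set.Iio δ), ((v, Sum.inr (Sum.inr (Sum.inl γ))) :
        Var ch δ Z x × Cnd δ b) ∈ J0 → γ.1 ∈ Γ := by
      intro v γ hmem
      simp only [Γ, Finset.mem_biUnion]
      refine ⟨{γ.1}, Finset.mem_image.2 ⟨_, hmem, rfl⟩, Finset.mem_singleton_self _⟩
    have hΓ : ∀ γ ∈ Γ, γ < δ := by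
      intro γ hγ
      simp only [Γ, Finset.mem_biUnion, Finset.mem_image] at hγ
      obtain ⟨S, ⟨⟨v, c⟩, hj, rfl⟩, hγ⟩ := hγ
      rcases c with c | c | c | c | c
      · exact absurd hγ (Finset.notMem_empty _)
      · exact absurd hγ (Finset.notMem_empty _)
      · simp only [id] at hγ
        rw [Finset.mem_singleton] at hγ
        rw [hγ]; exact c.2
      · exact absurd hγ (Finset.notMem_empty _)
      · exact absurd hγ (Finset.notMem_empty _)
    obtain ⟨iγ, o, hO, hΓ2⟩ := old_exists hU hG hL hold hZ Γ hΓ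
    -- heights
    let kk : (Var ch δ Z x × Cnd δ b) → ℕ := fun j => match j.2 with
      | Sum.inr (Sum.inr (Sum.inr (Sum.inl k))) => k
      | _ => 0
    let k := J0.sup kk
    have hk : ∀ v (k' : ℕ), ((v, Sum.inr (Sum.inr (Sum.inr (Sum.inl k')))) :
        Var ch δ Z x × Cnd δ b) ∈ J0 → k' ≤ k := by
      intro v k' hmem
      exact Finset.le_sup (f := kk) hmem
    -- excluded labels
    let M : Finset CI := (J0.image (fun j => match j.2 with
      | Sum.inr (Sum.inr (Sum.inr (Sum.inr μ))) => ({μ.1} : Finset CI)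
      | _ => ∅)).biUnion id
    have hMmem : ∀ v (μ : Set.Iio b), ((v, Sum.inr (Sum.inr (Sum.inr (Sum.inr μ)))) :
        Var ch δ Z x × Cnd δ b) ∈ J0 → μ.1 ∈ M := by
      intro v μ hmem
      simp only [M, Finset.mem_biUnion]
      refine ⟨{μ.1}, Finset.mem_image.2 ⟨_, hmem, rfl⟩, Finset.mem_singleton_self _⟩
    -- variables
    let Y : Finset X := (J0.biUnion (FF ch δ Z x b)).image Subtype.val
    have hYV : ∀ y ∈ Y, y ∈ cl ch δ x ∧ y ∉ Z := by
      intro y hy
      obtain ⟨v, _, rfl⟩ := Finset.mem_image.1 hy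
      exact v.2
    have hYmem : ∀ j ∈ J0, j.1.1 ∈ Y := by
      intro j hj
      refine Finset.mem_image.2 ⟨j.1, Finset.mem_biUnion.2 ⟨j, hj, ?_⟩, rfl⟩
      unfold FF; exact Finset.mem_insert_self _ _
    -- child conditions
    let E0 : Finset (X × CI) := (J0.image (fun j => match j.2 with
      | Sum.inr (Sum.inl ξ) => ({(j.1.1, ξ.1)} : Finset (X × CI))
      | _ => ∅)).biUnion id
    let E : Finset (X × CI) := E0.filter (fun e => ch e.1 e.2 < e.1)
    have hE0mem : ∀ v (ξ : Set.Iio δ), ((v, Sum.inr (Sum.inl ξ)) :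
        Var ch δ Z x × Cnd δ b) ∈ J0 → (v.1, ξ.1) ∈ E0 := by
      intro v ξ hmem
      simp only [E0, Finset.mem_biUnion]
      refine ⟨{(v.1, ξ.1)}, Finset.mem_image.2 ⟨_, hmem, rfl⟩, Finset.mem_singleton_self _⟩
    have hE0 : ∀ e ∈ E0, ∃ (v : Var ch δ Z x) (ξ : Set.Iio δ),
        ((v, Sum.inr (Sum.inl ξ)) : Var ch δ Z x × Cnd δ b) ∈ J0 ∧ e = (v.1, ξ.1) := by
      intro e he
      simp only [E0, Finset.mem_biUnion, Finset.mem_image] at he
      obtain ⟨S, ⟨⟨v, c⟩, hj, rfl⟩, he⟩ := he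
      rcases c with c | c | c | c | c
      · exact absurd he (Finset.notMem_empty _)
      · simp only [id] at he
        rw [Finset.mem_singleton] at he
        exact ⟨v, c, hj, he⟩
      · exact absurd he (Finset.notMem_empty _)
      · exact absurd he (Finset.notMem_empty _)
      · exact absurd he (Finset.notMem_empty _)
    have hE : ∀ e ∈ E, e.1 ∈ Y ∧ e.2 < δ ∧ ch e.1 e.2 < e.1 ∧
        (ch e.1 e.2 ∈ Y ∨ ch e.1 e.2 ∈ Z) := by
      intro e he
      rw [Finset.mem_filter] at he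
      obtain ⟨v, ξ, hj, rfl⟩ := hE0 e he.1
      refine ⟨hYmem _ hj, ξ.2, he.2, ?_⟩
      by_cases hc : ch v.1 ξ.1 ∈ Z
      · exact Or.inr hc
      · left
        have hc' : ch v.1 ξ.1 ∈ cl ch δ x ∧ ch v.1 ξ.1 ∉ Z :=
          ⟨cl_trans v.2.1 (ch_mem_cl ch v.1 ξ.2), hc⟩
        refine Finset.mem_image.2 ⟨⟨ch v.1 ξ.1, hc'⟩, Finset.mem_biUnion.2 ⟨_, hj, ?_⟩, rfl⟩
        unfold FF
        simp only
        rw [dif_pos hc']
        exact Finset.mem_insert_of_mem (Finset.mem_singleton_self _)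
    have h1 := finsat hU hG hL hbd1 hbd2 hZ hO M Y.card Y rfl (fun y hy => (hYV y hy).2) E hE k
    -- the cut conditions
    have h2 : ∀ᶠ n in (U : Filter ℕ), ∀ γ ∈ Γ, ∀ y ∈ Y, i γ n ≤ iγ n ∧
        cut (i γ n) (o y n) = old γ y n := by
      rw [Filter.eventually_all_finset]
      intro γ hγ
      rw [Filter.eventually_all_finset]
      intro y _
      exact hΓ2 γ hγ y
    filter_upwards [h1, h2] with n a1 a2
    obtain ⟨φ, c1, c2, c3⟩ := a1
    refine ⟨fun v => φ v.1, ?_⟩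
    rintro ⟨v, c⟩ hj
    have hvY : v.1 ∈ Y := hYmem _ hj
    have hv := c2 _ hvY
    rcases c with c | c | c | c | c
    · have hc : c = 0 ∨ c = 1 ∨ c = 2 := by
        rcases c with ⟨c, hc⟩
        interval_cases c
        · left; rfl
        · right; left; rfl
        · right; right; rfl
      rcases hc with rfl | rfl | rfl
      · exact hv.name
      · exact hv.root
      · exact hv.conf
    · intro hlt
      have he : ((v.1, c.1) : X × CI) ∈ E := Finset.mem_filter.2 ⟨hE0mem v c hj, hlt⟩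
      have h3 := c3 _ he
      simp only at h3
      simp only
      rw [h3]
      by_cases hc : ch v.1 c.1 ∈ cl ch δ x ∧ ch v.1 c.1 ∉ Z
      · rw [extd_of hc]
      · rw [extd_not hc]
        have hz : ch v.1 c.1 ∈ Z := by
          by_contra hcon
          exact hc ⟨cl_trans v.2.1 (ch_mem_cl ch v.1 c.2), hcon⟩
        exact c1 _ (fun hmem => (hYV _ hmem).2 hz)
    · obtain ⟨h3, h4⟩ := a2 c.1 (hΓmem v c hj) v.1 hvY
      change cut (i c.1 n) (φ v.1) = old c.1 v.1 n
      rw [← h4, ← hv.cut, cut_cut h3]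
    · intro w hw
      have h3 := hv.height w hw
      have h4 := hk v c hj
      omega
    · intro hμ
      exact hv.excl c.1 (hMmem v c hj) hμ)
  -- the extended names
  refine ⟨fun y n => extd ch δ Z x (fun z => t0 z n) (fun v => f v n) y, ?_, ?_⟩
  · intro z hz
    funext n
    exact extd_not (fun h => h.2 hz)
  · intro y hy
    by_cases hyZ : y ∈ Z
    · refine (hZ y hyZ).congr ?_ ?_
      · funext n
        exact extd_not (fun h => h.2 hyZ)
      · intro ξ hξ
        funext n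
        exact extd_not (fun h => h.2 (hZcl y hyZ ξ hξ))
    · have hyx : y ∈ cl ch δ x := hy.resolve_left hyZ
      have hyV : y ∈ cl ch δ x ∧ y ∉ Z := ⟨hyx, hyZ⟩
      have ht : ∀ n, extd ch δ Z x (fun z => t0 z n) (fun v => f v n) y = f ⟨y, hyV⟩ n :=
        fun n => extd_of hyV
      refine ⟨?_, ?_, ?_, ?_, ?_, ?_, ?_⟩
      · filter_upwards [hf (⟨y, hyV⟩, Sum.inl 0)] with n hn
        rw [ht n]; exact hn
      · filter_upwards [hf (⟨y, hyV⟩, Sum.inl 1)] with n hn
        rw [ht n]; exact hn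
      · intro ξ hξ hlt
        filter_upwards [hf (⟨y, hyV⟩, Sum.inr (Sum.inl ⟨ξ, hξ⟩))] with n hn
        rw [ht n]; exact hn hlt
      · intro γ hγ
        filter_upwards [hf (⟨y, hyV⟩, Sum.inr (Sum.inr (Sum.inl ⟨γ, hγ⟩)))] with n hn
        rw [ht n]; exact hn
      · intro k
        filter_upwards [hf (⟨y, hyV⟩, Sum.inr (Sum.inr (Sum.inr (Sum.inl k))))] with n hn
        rw [ht n]; exact hn
      · filter_upwards [hf (⟨y, hyV⟩, Sum.inl 2)] with n hn
        rw [ht n]; exact hn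
      · intro μ hμ hμ'
        have hμb : μ < b := lt_of_lt_of_le hμ (hbd2 x y hyx)
        filter_upwards [hf (⟨y, hyV⟩, Sum.inr (Sum.inr (Sum.inr (Sum.inr ⟨μ, hμb⟩))))] with n hn
        rw [ht n]; exact hn hμ'

end

theorem st_level (hms : ST_msat) : ST_level := by
  classical
  intro _ U hU X _ ch _ ν _ i hG lam K hL bd hbd1 hbd2 δ old hold
  obtain ⟨f, hf⟩ := Pool.Agent.H32.PP.wf_rec (X := X → ℕ → Nm) (WellOrderingRel (α := X))
    (WellOrderingRel.isWellOrder (α := X)).toIsWellFounded.wf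
    (fun x g v => (∀ y ∈ cl ch δ x, LevelOK U ch ν i lam K bd δ old v y) ∧
      ∀ x' (h : WellOrderingRel x' x), ∀ y ∈ cl ch δ x', y ∈ cl ch δ x → v y = g x' h y)
    (by
      intro x f hf
      -- consistency of the previous functions
      have hcons : ∀ x', WellOrderingRel x' x → ∀ x'', WellOrderingRel x'' x →
          ∀ y, y ∈ cl ch δ x' → y ∈ cl ch δ x'' → f x' y = f x'' y := by
        intro x' hx' x'' hx'' y h1 h2
        rcases trichotomous_of WellOrderingRel x' x'' with h | h | h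
        · exact ((hf x'' hx'').2 x' h y h1 h2).symm
        · rw [h]
        · exact (hf x' hx').2 x'' h y h2 h1
      let t0 : X → ℕ → Nm := fun y =>
        if h : ∃ x', WellOrderingRel x' x ∧ y ∈ cl ch δ x' then f h.choose y else fun _ => 0
      have ht0 : ∀ x', WellOrderingRel x' x → ∀ y ∈ cl ch δ x', t0 y = f x' y := by
        intro x' hx' y hy
        have hex : ∃ x', WellOrderingRel x' x ∧ y ∈ cl ch δ x' := ⟨x', hx', hy⟩
        have h1 : t0 y = f hex.choose y := dif_pos hex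
        rw [h1]
        exact hcons _ hex.choose_spec.1 _ hx' y hex.choose_spec.2 hy
      let Z : Set X := {y | ∃ x', WellOrderingRel x' x ∧ y ∈ cl ch δ x'}
      have hZcl : ∀ z ∈ Z, ∀ ξ, ξ < δ → ch z ξ ∈ Z := by
        rintro z ⟨x', hx', hz⟩ ξ hξ
        exact ⟨x', hx', cl_trans hz (ch_mem_cl ch z hξ)⟩
      have hZ : ∀ z ∈ Z, LevelOK U ch ν i lam K bd δ old t0 z := by
        rintro z ⟨x', hx', hz⟩
        refine ((hf x' hx').1 z hz).congr (ht0 x' hx' z hz) ?_
        intro ξ hξ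
        exact ht0 x' hx' _ (cl_trans hz (ch_mem_cl ch z hξ))
      obtain ⟨t1, h1, h2⟩ := extend_step hms hU hG hL (hbd1 δ) (hbd2 δ) hold hZcl hZ x
      refine ⟨t1, fun y hy => h2 y (Or.inr hy), fun x' hx' y hy _ => ?_⟩
      rw [h1 y ⟨x', hx', hy⟩]
      exact ht0 x' hx' y hy)
  have hcons : ∀ x' x'' y, y ∈ cl ch δ x' → y ∈ cl ch δ x'' → f x' y = f x'' y := by
    intro x' x'' y h1 h2
    rcases trichotomous_of WellOrderingRel x' x'' with h | h | h
    · exact ((hf x'').2 x' h y h1 h2).symm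
    · rw [h]
    · exact (hf x').2 x'' h y h2 h1
  refine ⟨fun y => f y y, fun y => ?_⟩
  refine ((hf y).1 y (self_mem_cl ch δ y)).congr rfl ?_
  intro ξ hξ
  exact hcons _ _ _ (self_mem_cl ch δ _) (ch_mem_cl ch y hξ)

end Pool.Agent.Helper11.PP
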