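import Pool.Agent.Helper11.PP.Inf

set_option autoImplicit false

/-!
# The Tukey lemma (module I8)
-/

namespace Pool.Agent.Helper11.PP

open Cardinal Filter Set

namespace Tuk

variable {U V : Ultrafilter (ℕ × ℕ)} {g : Set (ℕ × ℕ) → Set (ℕ × ℕ)}

/-- The monotone cofinal map. -/
def phi (U : Ultrafilter (ℕ × ℕ)) (g : Set (ℕ × ℕ) → Set (ℕ × ℕ)) (A : Set (ℕ × ℕ)) :
    Set (ℕ × ℕ) := {z | ∃ B ∈ U, B ⊆ A ∧ z ∈ g B}

theorem phi_mono {A A' : Set (ℕ × ℕ)} (h : A ⊆ A') : phi U g A ⊆ phi U g A' := by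
  rintro z ⟨B, hB, hBA, hz⟩
  exact ⟨B, hB, hBA.trans h, hz⟩

theorem phi_mem (hg : TukeyMap U V g) {A : Set (ℕ × ℕ)} (hA : A ∈ U) : phi U g A ∈ V :=
  Filter.mem_of_superset (hg.1 A hA) (fun _ hz => ⟨A, hA, Set.Subset.rfl, hz⟩)

theorem phi_cof (hg : TukeyMap U V g) {D : Set (ℕ × ℕ)} (hD : D ∈ V) :
    ∃ A ∈ U, phi U g A ⊆ D := by
  by_contra hcon
  push Not at hcon
  obtain ⟨C, hC1, hC2⟩ := hg.2 {B | B ∈ U ∧ ¬ g B ⊆ D} (fun C hC => hC.1) (by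
    intro A hA
    have h1 := hcon A hA
    rw [Set.not_subset] at h1
    obtain ⟨z, ⟨B, hB, hBA, hz⟩, hzD⟩ := h1
    exact ⟨B, ⟨hB, fun h => hzD (h hz)⟩, hBA⟩) D hD
  exact hC1.2 hC2

/-- The points forced by the finite part `s`. -/
def phinf (U : Ultrafilter (ℕ × ℕ)) (g : Set (ℕ × ℕ) → Set (ℕ × ℕ)) (s : Set (ℕ × ℕ)) :
    Set (ℕ × ℕ) := {z | ∀ A ∈ U, z ∈ phi U g (s ∪ A)}

theorem phinf_mono {s s' : Set (ℕ × ℕ)} (h : s ⊆ s') : phinf U g s ⊆ phinf U g s' :=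
  fun _ hz A hA => phi_mono (Set.union_subset_union_left _ h) (hz A hA)

/-- The P-point property for countable families, in tail form. -/
theorem pseudo (hP : ∀ A : ℕ → Set (ℕ × ℕ), (∀ k, A k ∈ U) → ∃ B ∈ U, ∀ k, (B \ A k).Finite)
    {ι : Type} [Countable ι] [Nonempty ι] (A : ι → Set (ℕ × ℕ)) (hA : ∀ i, A i ∈ U)
    {A0 : Set (ℕ × ℕ)} (hA0 : A0 ∈ U) :
    ∃ B ∈ U, B ⊆ A0 ∧ ∃ m : ι → ℕ, ∀ i, ∀ z ∈ B, m i < z.1 → z ∈ A i := by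
  obtain ⟨e, he⟩ := exists_surjective_nat ι
  obtain ⟨B, hB, hB2⟩ := hP (fun k => A (e k)) (fun k => hA _)
  refine ⟨B ∩ A0, Filter.inter_mem hB hA0, Set.inter_subset_right, ?_⟩
  have key : ∀ i, ∃ m : ℕ, ∀ z ∈ B ∩ A0, m < z.1 → z ∈ A i := by
    intro i
    obtain ⟨k, rfl⟩ := he i
    obtain ⟨m, hm⟩ := ((hB2 k).image Prod.fst).bddAbove
    refine ⟨m, fun z hz hlt => ?_⟩
    by_contra hcon
    have : z.1 ≤ m := hm ⟨z, ⟨hz.1, hcon⟩, rfl⟩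
    omega
  choose m hm using key
  exact ⟨m, hm⟩

/-- The part of `A` in the columns `≤ n`. -/
def lo (n : ℕ) (A : Set (ℕ × ℕ)) : Set (ℕ × ℕ) := {z | z ∈ A ∧ z.1 ≤ n}

theorem lo_finite {A : Set (ℕ × ℕ)} (hA : ∀ n, {q | (n, q) ∈ A}.Finite) (n : ℕ) :
    (lo n A).Finite := by
  have h1 : lo n A ⊆ ⋃ k ∈ Set.Iic n, (fun q => (k, q)) '' {q | (k, q) ∈ A} := by
    rintro ⟨k, q⟩ ⟨h1, h2⟩
    simp only [Set.mem_iUnion]
    exact ⟨k, h2, q, h1, rfl⟩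
  exact ((Set.finite_Iic n).biUnion (fun k _ => (hA k).image _)).subset h1

/-- A bound for finitely many values, for each `n`. -/
theorem bound_fin {ι : Type} (P : ℕ → Set ι) (hP : ∀ n, (P n).Finite) (m : ι → ℕ) :
    ∃ b : ℕ → ℕ, ∀ n, ∀ i ∈ P n, m i ≤ b n := by
  have key : ∀ n, ∃ b : ℕ, ∀ i ∈ P n, m i ≤ b := by
    intro n
    obtain ⟨b, hb⟩ := ((hP n).image m).bddAbove
    exact ⟨b, fun i hi => hb ⟨i, hi, rfl⟩⟩
  choose b hb using key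
  exact ⟨b, hb⟩

/-- Step 1: continuity. -/
theorem step1 {U0 : Ultrafilter ℕ} (hU0 : GoodUF U0) (hUp : U.map Prod.fst = U0)
    (hP : ∀ A : ℕ → Set (ℕ × ℕ), (∀ k, A k ∈ U) → ∃ B ∈ U, ∀ k, (B \ A k).Finite)
    {A0 D0 : Set (ℕ × ℕ)} (hA0 : A0 ∈ U) (fA0 : ∀ n, {q | (n, q) ∈ A0}.Finite)
    (fD0 : ∀ n, {q | (n, q) ∈ D0}.Finite) (g : Set (ℕ × ℕ) → Set (ℕ × ℕ)) :
    ∃ A1 ∈ U, A1 ⊆ A0 ∧ ∃ S ∈ U0, (∀ z ∈ A1, z.1 ∈ S) ∧
      ∀ A' ∈ U, A' ⊆ A1 → ∀ n ∈ S, ∀ q ∈ D0, q.1 ≤ n → q ∈ phi U g A' →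
        q ∈ phinf U g (lo n A') := by
  classical
  have key : ∀ x : Finset (ℕ × ℕ) × (ℕ × ℕ), ∃ A ∈ U,
      (x.2 ∉ phinf U g (x.1 : Set (ℕ × ℕ)) → x.2 ∉ phi U g ((x.1 : Set (ℕ × ℕ)) ∪ A)) := by
    intro x
    by_cases h : x.2 ∈ phinf U g (x.1 : Set (ℕ × ℕ))
    · exact ⟨Set.univ, Filter.univ_mem, fun h2 => absurd h h2⟩
    · have h2 : ∃ A ∈ U, x.2 ∉ phi U g ((x.1 : Set (ℕ × ℕ)) ∪ A) := by
        by_contra hcon
        push Not at hcon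
        exact h hcon
      obtain ⟨A, hA, hx⟩ := h2
      exact ⟨A, hA, fun _ => hx⟩
  choose A hA hAx using key
  obtain ⟨As, hAs, hAs0, m, hm⟩ := pseudo hP A hA hA0
  obtain ⟨b, hb⟩ := bound_fin (fun n => {x : Finset (ℕ × ℕ) × (ℕ × ℕ) |
      (x.1 : Set (ℕ × ℕ)) ⊆ lo n A0 ∧ x.2 ∈ lo n D0}) (by
    intro n
    have h1 := lo_finite fA0 n
    have h2 := lo_finite fD0 n
    have h3 : {s : Finset (ℕ × ℕ) | (s : Set (ℕ × ℕ)) ⊆ lo n A0}.Finite := by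
      refine ((h1.toFinset.powerset).finite_toSet).subset ?_
      intro s hs
      rw [Finset.mem_coe, Finset.mem_powerset]
      intro z hz
      rw [Set.Finite.mem_toFinset]
      exact hs hz
    exact (h3.prod h2).subset (fun x hx => ⟨hx.1, hx.2⟩)) m
  obtain ⟨S, hS, hSp⟩ := hU0.sparse b
  have hS' : {z : ℕ × ℕ | z.1 ∈ S} ∈ U := by
    rw [← hUp, Ultrafilter.mem_map] at hS
    exact hS
  refine ⟨As ∩ {z | z.1 ∈ S}, Filter.inter_mem hAs hS', Set.inter_subset_left.trans hAs0, S, hS,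
    fun z hz => hz.2, ?_⟩
  intro A' hA' hsub n hn q hq hqn hqφ
  by_contra hcon
  have hlosub : lo n A' ⊆ lo n A0 := fun z hz => ⟨hAs0 (hsub hz.1).1, hz.2⟩
  have hfin : (lo n A').Finite := (lo_finite fA0 n).subset hlosub
  set s := hfin.toFinset with hs
  have hcoe : (s : Set (ℕ × ℕ)) = lo n A' := hfin.coe_toFinset
  have hx : (s, q) ∈ {x : Finset (ℕ × ℕ) × (ℕ × ℕ) |
      (x.1 : Set (ℕ × ℕ)) ⊆ lo n A0 ∧ x.2 ∈ lo n D0} := by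
    refine ⟨?_, hq, hqn⟩
    simp only
    rw [hcoe]; exact hlosub
  have h1 := hb n _ hx
  have h2 : A' ⊆ (s : Set (ℕ × ℕ)) ∪ A (s, q) := by
    intro z hz
    by_cases hzn : z.1 ≤ n
    · left
      rw [hcoe]; exact ⟨hz, hzn⟩
    · right
      have hz2 := hsub hz
      have h3 : b n < z.1 := hSp n hn z.1 hz2.2 (by omega)
      exact hm (s, q) z hz2.1 (lt_of_le_of_lt h1 h3)
  have h3 := hAx (s, q)
  simp only [hcoe] at h3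
  refine h3 hcon ?_
  rw [hcoe] at h2
  exact phi_mono h2 hqφ

/-- Step 2: all finite parts are good. -/
theorem step2 (hg : TukeyMap U V g)
    (hPV : ∀ A : ℕ → Set (ℕ × ℕ), (∀ k, A k ∈ V) → ∃ B ∈ V, ∀ k, (B \ A k).Finite)
    {A1 : Set (ℕ × ℕ)} (hA1 : A1 ∈ U) :
    ∃ A2 ∈ U, A2 ⊆ A1 ∧ ∀ s : Finset (ℕ × ℕ), (s : Set (ℕ × ℕ)) ⊆ A2 → ∀ D ∈ V,
      ∃ A ∈ U, ∃ m : ℕ, ∀ z ∈ phi U g ((s : Set (ℕ × ℕ)) ∪ A), m < z.1 → z ∈ D := by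
  classical
  have key : ∀ s : Finset (ℕ × ℕ), ∃ D ∈ V,
      ((∃ A ∈ U, ∃ m : ℕ, ∀ z ∈ phi U g ((s : Set (ℕ × ℕ)) ∪ A), m < z.1 → z ∈ D) →
        ∀ D ∈ V, ∃ A ∈ U, ∃ m : ℕ, ∀ z ∈ phi U g ((s : Set (ℕ × ℕ)) ∪ A), m < z.1 → z ∈ D) := by
    intro s
    by_cases h : ∀ D ∈ V, ∃ A ∈ U, ∃ m : ℕ, ∀ z ∈ phi U g ((s : Set (ℕ × ℕ)) ∪ A),
        m < z.1 → z ∈ D
    · exact ⟨Set.univ, Filter.univ_mem, fun _ => h⟩
    · rw [not_forall] at h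
      obtain ⟨D, hD⟩ := h
      rw [Classical.not_imp] at hD
      exact ⟨D, hD.1, fun h2 => absurd h2 hD.2⟩
  choose D hD hD2 using key
  obtain ⟨D', hD', _, m, hm⟩ := pseudo hPV D hD (A0 := Set.univ) Filter.univ_mem
  obtain ⟨A, hA, hAD⟩ := phi_cof hg hD'
  refine ⟨A ∩ A1, Filter.inter_mem hA hA1, Set.inter_subset_right, fun s hs => ?_⟩
  refine hD2 s ⟨A ∩ A1, Filter.inter_mem hA hA1, m s, fun z hz hlt => ?_⟩
  rw [Set.union_eq_self_of_subset_left hs] at hz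
  exact hm s z (hAD (phi_mono Set.inter_subset_left hz)) hlt

/-- The column `n` of a family of finite sets. -/
def col (n : ℕ) (a : Set ℕ) : Set (ℕ × ℕ) := {z | z.1 = n ∧ z.2 ∈ a}

/-- The local maps. -/
def psi (U : Ultrafilter (ℕ × ℕ)) (g : Set (ℕ × ℕ) → Set (ℕ × ℕ)) (D0 : Set (ℕ × ℕ))
    (s : Set (ℕ × ℕ)) (n : ℕ) (a : Finset ℕ) : Set ℕ :=
  {v | (n, v) ∈ D0 ∧ (n, v) ∈ phinf U g (s ∪ col n (a : Set ℕ))}

theorem psi_mono {D0 s : Set (ℕ × ℕ)} {n : ℕ} {a b : Finset ℕ} (h : a ⊆ b) :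
    psi U g D0 s n a ⊆ psi U g D0 s n b := by
  rintro v ⟨h1, h2⟩
  refine ⟨h1, phinf_mono (Set.union_subset_union_right _ ?_) h2⟩
  rintro z ⟨h3, h4⟩
  exact ⟨h3, h h4⟩

/-- Step 3: for some finite `s` the local maps send `U` into `V`. -/
theorem step3 {U0 : Ultrafilter ℕ} (hU0 : GoodUF U0) (hUp : U.map Prod.fst = U0)
    (hVp : V.map Prod.fst = U0) (hg : TukeyMap U V g)
    (hPU : ∀ A : ℕ → Set (ℕ × ℕ), (∀ k, A k ∈ U) → ∃ B ∈ U, ∀ k, (B \ A k).Finite)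
    (hPV : ∀ A : ℕ → Set (ℕ × ℕ), (∀ k, A k ∈ V) → ∃ B ∈ V, ∀ k, (B \ A k).Finite)
    {A1 D0 : Set (ℕ × ℕ)} (hA1 : A1 ∈ U) (hD0 : D0 ∈ V)
    (fA1 : ∀ n, {q | (n, q) ∈ A1}.Finite) {S : Set ℕ} (hS : S ∈ U0)
    (hcont : ∀ A' ∈ U, A' ⊆ A1 → ∀ n ∈ S, ∀ q ∈ D0, q.1 ≤ n → q ∈ phi U g A' →
        q ∈ phinf U g (lo n A')) :
    ∃ s : Finset (ℕ × ℕ), (s : Set (ℕ × ℕ)) ⊆ A1 ∧ ∀ B : ℕ → Finset ℕ,
      {z : ℕ × ℕ | z.2 ∈ B z.1} ⊆ A1 → {z : ℕ × ℕ | z.2 ∈ B z.1} ∈ U →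
        {z : ℕ × ℕ | z.2 ∈ psi U g D0 (s : Set (ℕ × ℕ)) z.1 (B z.1)} ∈ V := by
  classical
  by_contra hcon
  push Not at hcon
  have key : ∀ s : Finset (ℕ × ℕ), ∃ B : ℕ → Finset ℕ, (s : Set (ℕ × ℕ)) ⊆ A1 →
      ({z : ℕ × ℕ | z.2 ∈ B z.1} ∈ U ∧
        {z : ℕ × ℕ | z.2 ∈ psi U g D0 (s : Set (ℕ × ℕ)) z.1 (B z.1)} ∉ V) := by
    intro s
    by_cases h : (s : Set (ℕ × ℕ)) ⊆ A1
    · obtain ⟨B, _, h2, h3⟩ := hcon s h
      exact ⟨B, fun _ => ⟨h2, h3⟩⟩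
    · exact ⟨fun _ => ∅, fun h2 => absurd h2 h⟩
  choose B hB using key
  -- the sets to diagonalise
  let A : Finset (ℕ × ℕ) → Set (ℕ × ℕ) := fun s =>
    {z | (s : Set (ℕ × ℕ)) ⊆ A1 → z.2 ∈ B s z.1}
  have hA : ∀ s, A s ∈ U := by
    intro s
    by_cases h : (s : Set (ℕ × ℕ)) ⊆ A1
    · exact Filter.mem_of_superset (hB s h).1 (fun z hz _ => hz)
    · exact Filter.mem_of_superset Filter.univ_mem (fun z _ h2 => absurd h2 h)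
  let E : Finset (ℕ × ℕ) → Set (ℕ × ℕ) := fun s =>
    {z | (s : Set (ℕ × ℕ)) ⊆ A1 → z.2 ∉ psi U g D0 (s : Set (ℕ × ℕ)) z.1 (B s z.1)}
  have hE : ∀ s, E s ∈ V := by
    intro s
    by_cases h : (s : Set (ℕ × ℕ)) ⊆ A1
    · have h1 := Ultrafilter.compl_mem_iff_notMem.2 (hB s h).2
      exact Filter.mem_of_superset h1 (fun z hz _ => hz)
    · exact Filter.mem_of_superset Filter.univ_mem (fun z _ h2 => absurd h2 h)
  obtain ⟨A2, hA2, hA21, m, hm⟩ := pseudo hPU A hA hA1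
  obtain ⟨E', hE', hE'0, m', hm'⟩ := pseudo hPV E hE hD0
  obtain ⟨b, hb⟩ := bound_fin (fun n => {s : Finset (ℕ × ℕ) | (s : Set (ℕ × ℕ)) ⊆ lo n A1}) (by
    intro n
    have h1 := lo_finite fA1 n
    refine ((h1.toFinset.powerset).finite_toSet).subset ?_
    intro s hs
    rw [Finset.mem_coe, Finset.mem_powerset]
    intro z hz
    rw [Set.Finite.mem_toFinset]
    exact hs hz) (fun s => max (m s) (m' s))
  obtain ⟨S1, hS1, hSp⟩ := hU0.sparse b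
  set S2 := S1 ∩ S with hS2
  have hS2U : S2 ∈ U0 := Filter.inter_mem hS1 hS
  have hU2 : {z : ℕ × ℕ | z.1 ∈ S2} ∈ U := by
    have h := hS2U
    rw [← hUp, Ultrafilter.mem_map] at h
    exact h
  have hne : S2.Nonempty := Ultrafilter.nonempty_of_mem hS2U
  set n0 := sInf S2 with hn0
  have hn0S : n0 ∈ S2 := Nat.sInf_mem hne
  have hV2 : {z : ℕ × ℕ | z.1 ∈ S2 ∧ n0 < z.1} ∈ V := by
    have h : S2 ∩ {n | n0 + 1 ≤ n} ∈ U0 := Filter.inter_mem hS2U (hU0.free (n0 + 1))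
    rw [← hVp, Ultrafilter.mem_map] at h
    exact Filter.mem_of_superset h (fun z hz => ⟨hz.1, hz.2⟩)
  set A3 := A2 ∩ {z : ℕ × ℕ | z.1 ∈ S2} with hA3
  have hA3U : A3 ∈ U := Filter.inter_mem hA2 hU2
  have hA31 : A3 ⊆ A1 := Set.inter_subset_left.trans hA21
  obtain ⟨z, ⟨hz1, hz2⟩, hz3⟩ := Ultrafilter.nonempty_of_mem
    (Filter.inter_mem (Filter.inter_mem (phi_mem hg hA3U) hE') hV2)
  obtain ⟨n, v⟩ := z
  obtain ⟨hnS, hn⟩ := hz3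
  -- the predecessor
  have hfinp : (S2 ∩ Set.Iio n).Finite := (Set.finite_Iio n).subset Set.inter_subset_right
  obtain ⟨k, hk, hkmax⟩ := hfinp.exists_maximal ⟨n0, hn0S, hn⟩
  have hkS : k ∈ S2 := hk.1
  have hkn : k < n := hk.2
  have hkmax' : ∀ j ∈ S2, j < n → j ≤ k := by
    intro j hj hjn
    by_contra hcon2
    have h1 := hkmax (y := j) ⟨hj, hjn⟩ (by omega)
    omega
  have hfin : (lo k A3).Finite := (lo_finite fA1 k).subset (fun z hz => ⟨hA31 hz.1, hz.2⟩)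
  set s := hfin.toFinset with hs
  have hcoe : (s : Set (ℕ × ℕ)) = lo k A3 := hfin.coe_toFinset
  have hsA1 : (s : Set (ℕ × ℕ)) ⊆ A1 := by
    rw [hcoe]; exact fun z hz => hA31 hz.1
  have hsmem : s ∈ {s : Finset (ℕ × ℕ) | (s : Set (ℕ × ℕ)) ⊆ lo k A1} := by
    change (s : Set (ℕ × ℕ)) ⊆ lo k A1
    rw [hcoe]; exact fun z hz => ⟨hA31 hz.1, hz.2⟩
  have hbs := hb k s hsmem
  have hbn : b k < n := hSp k hkS.1 n hnS.1 hkn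
  have hmn : m s < n := lt_of_le_of_lt ((le_max_left _ _).trans hbs) hbn
  have hm'n : m' s < n := lt_of_le_of_lt ((le_max_right _ _).trans hbs) hbn
  have h1 : (n, v) ∈ phinf U g (lo n A3) := hcont A3 hA3U hA31 n hnS.2 (n, v) (hE'0 hz2) le_rfl hz1
  have h2 : lo n A3 ⊆ (s : Set (ℕ × ℕ)) ∪ col n (B s n : Set ℕ) := by
    rintro ⟨j, q⟩ ⟨h3, h4⟩
    simp only at h4
    rcases h4.lt_or_eq with h5 | h5
    · left
      rw [hcoe]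
      exact ⟨h3, hkmax' j h3.2 h5⟩
    · right
      subst h5
      refine ⟨rfl, ?_⟩
      exact hm s (j, q) h3.1 hmn hsA1
  have h3 : (n, v) ∈ phinf U g ((s : Set (ℕ × ℕ)) ∪ col n (B s n : Set ℕ)) := phinf_mono h2 h1
  exact hm' s (n, v) hz2 hm'n hsA1 ⟨hE'0 hz2, h3⟩

end Tuk

theorem st_tukey : ST_tukey := by
  classical
  intro U0 hU0 U V hUp hVp hPU hPV ⟨A0, hA0, fA0⟩ ⟨D0, hD0, fD0⟩ g hg
  obtain ⟨A1, hA1, hA10, S, hS, hAS, hcont⟩ := Tuk.step1 hU0 hUp hPU hA0 fA0 fD0 g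
  obtain ⟨A2, hA2, hA21, hgood⟩ := Tuk.step2 hg hPV hA1
  have fA2 : ∀ n, {q | (n, q) ∈ A2}.Finite := fun n =>
    (fA0 n).subset (fun q hq => hA10 (hA21 hq))
  obtain ⟨s, hs, hs2⟩ := Tuk.step3 hU0 hUp hVp hg hPU hPV hA2 hD0 fA2 hS
    (fun A' hA' hsub n hn q hq hqn hqφ => hcont A' hA' (hsub.trans hA21) n hn q hq hqn hqφ)
  refine ⟨A2, Tuk.psi U g D0 (s : Set (ℕ × ℕ)), hA2, fA2, fun n a b h => Tuk.psi_mono h, hs2, ?_⟩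
  intro D hD
  obtain ⟨A, hA, m, hm⟩ := hgood s hs D hD
  refine ⟨fun n => (fA2 n).toFinset.filter (fun q => (n, q) ∈ A), ?_, ?_, m + 1, ?_⟩
  · refine Filter.mem_of_superset (Filter.inter_mem hA hA2) ?_
    rintro ⟨n, q⟩ ⟨h1, h2⟩
    simp only [Set.mem_ofPred_eq, Finset.mem_filter, Set.Finite.mem_toFinset]
    exact ⟨h2, h1⟩
  · rintro ⟨n, q⟩ h
    simp only [Set.mem_ofPred_eq, Finset.mem_filter, Set.Finite.mem_toFinset] at h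
    exact h.1
  · intro n hn v hv
    have h1 := hv.2 A hA
    refine hm (n, v) (Tuk.phi_mono ?_ h1) (by omega)
    refine Set.union_subset (Set.union_subset Set.subset_union_left ?_) Set.subset_union_right
    rintro ⟨j, q⟩ ⟨h2, h3⟩
    simp only at h2 h3
    subst h2
    right
    have h4 := (Finset.mem_filter.1 (Finset.mem_coe.1 h3)).2
    exact h4

end Pool.Agent.Helper11.PP
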